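import Mathlib
import Pool.Graph.R_pool_sql_team_seeded_b677cdb8.E8helper79.ZM.Step

/-!
# Elimination of one number `z` from numbers `θ_u` and `β_s + g_s(z, θ)`
-/

set_option autoImplicit false

namespace Pool.Agent.Helper98.AM

open Pool.Agent.E8helper79.ZM hiding polG polG_eval polG_eval' polG_sum res_ne_zero elim_step subA subA_subA polF
  psiA psiA_none psiA_some psiA_inj polP polP_inj polP_zero polP_one polF_map polF_eval polF_sum

section nonzero

variable {U S : Type}

/-- the polynomial `P(Y, θ)` -/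
noncomputable def polF (P : MvPolynomial (Option U) ℤ) : Polynomial (MvPolynomial (U ⊕ S) ℤ) :=
  MvPolynomial.aeval (fun o => o.elim Polynomial.X (fun u => Polynomial.C (MvPolynomial.X (Sum.inl u)))) P

/-- the inclusion of the polynomials in `θ` -/
noncomputable def inc : MvPolynomial U ℤ →+* MvPolynomial (U ⊕ S) ℤ :=
  (MvPolynomial.rename (R := ℤ) (Sum.inl : U → U ⊕ S)).toRingHom

/-- the polynomial `Q(θ, B_s + g_s(Y, θ))` -/
noncomputable def polG (g : S → Polynomial (MvPolynomial U ℤ)) (Q : MvPolynomial (U ⊕ S) ℤ) :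
    Polynomial (MvPolynomial (U ⊕ S) ℤ) :=
  MvPolynomial.aeval (Sum.elim (fun u => Polynomial.C (MvPolynomial.X (Sum.inl u)))
    (fun s => (g s).map inc + Polynomial.C (MvPolynomial.X (Sum.inr s)))) Q

variable {K : Type} [Field K] (φ : MvPolynomial U ℤ →+* K)

/-- the ring homomorphism which makes the `θ_u` constants -/
noncomputable def psiA : MvPolynomial (U ⊕ S) ℤ →+* MvPolynomial S K :=
  (MvPolynomial.map φ).comp ((MvPolynomial.sumAlgEquiv ℤ S U).toRingHom.comp
    (MvPolynomial.rename (R := ℤ) (Sum.swap : U ⊕ S → S ⊕ U)).toRingHom)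

lemma psiA_inl (u : U) : psiA (S := S) φ (MvPolynomial.X (Sum.inl u)) = MvPolynomial.C (φ (MvPolynomial.X u)) := by
  show MvPolynomial.map φ (MvPolynomial.sumAlgEquiv ℤ S U (MvPolynomial.rename Sum.swap (MvPolynomial.X (Sum.inl u)))) = _
  rw [MvPolynomial.rename_X, Sum.swap_inl, MvPolynomial.sumAlgEquiv_X_inr, MvPolynomial.map_C]

lemma psiA_inr (s : S) : psiA (U := U) φ (MvPolynomial.X (Sum.inr s)) = MvPolynomial.X s := by
  show MvPolynomial.map φ (MvPolynomial.sumAlgEquiv ℤ S U (MvPolynomial.rename Sum.swap (MvPolynomial.X (Sum.inr s)))) = _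
  rw [MvPolynomial.rename_X, Sum.swap_inr, MvPolynomial.sumAlgEquiv_X_inl, MvPolynomial.map_X]

lemma psiA_inj (hφ : Function.Injective φ) : Function.Injective (psiA (S := S) φ) := by
  intro x y h
  have h1 := (MvPolynomial.sumAlgEquiv ℤ S U).injective (MvPolynomial.map_injective φ hφ h)
  exact MvPolynomial.rename_injective _ (Equiv.sumComm U S).injective h1

lemma psiA_inc (p : MvPolynomial U ℤ) : psiA (S := S) φ (inc p) = MvPolynomial.C (φ p) := by
  have h : (psiA (S := S) φ).comp inc = MvPolynomial.C.comp φ := by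
    apply MvPolynomial.ringHom_ext
    · intro r
      simp
    · intro u
      show psiA φ (MvPolynomial.rename Sum.inl (MvPolynomial.X u)) = MvPolynomial.C (φ (MvPolynomial.X u))
      rw [MvPolynomial.rename_X, psiA_inl]
  exact congrArg (fun g => g p) h

/-- the polynomial `P(Y, θ)` over the field -/
noncomputable def polP : MvPolynomial (Option U) ℤ →+* Polynomial K :=
  (Polynomial.mapRingHom φ).comp (MvPolynomial.optionEquivLeft ℤ U).toRingHom

lemma polP_inj (hφ : Function.Injective φ) : Function.Injective (polP φ) := by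
  intro x y h
  exact (MvPolynomial.optionEquivLeft ℤ U).injective (Polynomial.map_injective φ hφ h)

lemma polP_none : polP φ (MvPolynomial.X none) = Polynomial.X := by
  show Polynomial.map _ (MvPolynomial.optionEquivLeft ℤ U (MvPolynomial.X none)) = _
  rw [MvPolynomial.optionEquivLeft_X_none, Polynomial.map_X]

lemma polP_some (u : U) : polP φ (MvPolynomial.X (some u)) = Polynomial.C (φ (MvPolynomial.X u)) := by
  show Polynomial.map _ (MvPolynomial.optionEquivLeft ℤ U (MvPolynomial.X (some u))) = _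
  rw [MvPolynomial.optionEquivLeft_X_some, Polynomial.map_C]

lemma polF_map (P : MvPolynomial (Option U) ℤ) : (polF (S := S) P).map (psiA φ) = (polP φ P).map MvPolynomial.C := by
  have h : ((Polynomial.mapRingHom (psiA (S := S) φ)).comp
      (MvPolynomial.aeval (fun o : Option U => o.elim Polynomial.X (fun u => Polynomial.C (MvPolynomial.X (Sum.inl u)))) :
        MvPolynomial (Option U) ℤ →ₐ[ℤ] Polynomial (MvPolynomial (U ⊕ S) ℤ)).toRingHom) =
      (Polynomial.mapRingHom MvPolynomial.C).comp (polP φ) := by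
    apply MvPolynomial.ringHom_ext
    · intro r
      simp
    · rintro (_ | u)
      · show Polynomial.map _ (MvPolynomial.aeval _ (MvPolynomial.X none)) =
          Polynomial.map _ (polP φ (MvPolynomial.X none))
        rw [MvPolynomial.aeval_X, polP_none]
        simp
      · show Polynomial.map _ (MvPolynomial.aeval _ (MvPolynomial.X (some u))) =
          Polynomial.map _ (polP φ (MvPolynomial.X (some u)))
        rw [MvPolynomial.aeval_X, polP_some]
        simp [psiA_inl]
  exact congrArg (fun g => g P) h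

/-- the substitution `B_s ↦ B_s + γ_s` -/
noncomputable def subA (γ : S → K) : MvPolynomial S K →ₐ[K] MvPolynomial S K :=
  MvPolynomial.aeval (fun s => MvPolynomial.C (γ s) + MvPolynomial.X s)

lemma subA_subA (γ : S → K) (P : MvPolynomial S K) : subA (-γ) (subA γ P) = P := by
  have h : (subA (-γ)).comp (subA γ) = AlgHom.id K _ := by
    apply MvPolynomial.algHom_ext
    intro s
    rw [AlgHom.comp_apply, AlgHom.id_apply, subA, subA, MvPolynomial.aeval_X, map_add, MvPolynomial.aeval_X,
      MvPolynomial.aeval_C, MvPolynomial.algebraMap_eq, Pi.neg_apply, MvPolynomial.C_neg]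
    ring
  exact congrArg (fun g => g P) h

lemma polG_eval (g : S → Polynomial (MvPolynomial U ℤ)) (α : K) (Q : MvPolynomial (U ⊕ S) ℤ) :
    ((polG g Q).map (psiA φ)).eval (MvPolynomial.C α) = subA (fun s => ((g s).map φ).eval α) (psiA φ Q) := by
  have h : ((Polynomial.evalRingHom (MvPolynomial.C α : MvPolynomial S K)).comp
      ((Polynomial.mapRingHom (psiA (S := S) φ)).comp
      (MvPolynomial.aeval (Sum.elim (fun u => Polynomial.C (MvPolynomial.X (Sum.inl u)))
        (fun s => (g s).map inc + Polynomial.C (MvPolynomial.X (Sum.inr s)))) :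
        MvPolynomial (U ⊕ S) ℤ →ₐ[ℤ] Polynomial (MvPolynomial (U ⊕ S) ℤ)).toRingHom)) =
      (subA (fun s => ((g s).map φ).eval α)).toRingHom.comp (psiA φ) := by
    apply MvPolynomial.ringHom_ext
    · intro r
      simp
    · intro i
      show Polynomial.eval (MvPolynomial.C α) (Polynomial.map (psiA φ) (MvPolynomial.aeval _ (MvPolynomial.X i))) =
        subA (fun s => ((g s).map φ).eval α) (psiA φ (MvPolynomial.X i))
      rw [MvPolynomial.aeval_X]
      rcases i with u | s
      · rw [psiA_inl, subA, MvPolynomial.aeval_C, MvPolynomial.algebraMap_eq]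
        simp [psiA_inl]
      · rw [psiA_inr, subA, MvPolynomial.aeval_X, Sum.elim_inr, Polynomial.map_add, Polynomial.map_map,
          Polynomial.eval_add, Polynomial.map_C, Polynomial.eval_C, psiA_inr]
        congr 1
        have h2 : (psiA (S := S) φ).comp inc = MvPolynomial.C.comp φ := RingHom.ext fun p => psiA_inc φ p
        rw [h2, ← Polynomial.map_map, Polynomial.eval_map_apply]
  exact congrArg (fun g => g Q) h

/-- the resultant does not vanish -/
lemma res_ne_zero [IsAlgClosed K] (hφ : Function.Injective φ) {P : MvPolynomial (Option U) ℤ} (hP : P ≠ 0)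
    (g : S → Polynomial (MvPolynomial U ℤ))
    {Q : MvPolynomial (U ⊕ S) ℤ} (hQ : Q ≠ 0) {n : ℕ} (hn : (polG g Q).natDegree ≤ n) :
    Polynomial.resultant (polF P) (polG g Q) (polF (S := S) P).natDegree n ≠ 0 := by
  intro h0
  have hinj := psiA_inj (S := S) φ hφ
  have h1 := congrArg (psiA (S := S) φ) h0
  rw [map_zero, ← Polynomial.resultant_map_map, ← Polynomial.natDegree_map_eq_of_injective hinj (polF P), polF_map] at h1
  have hp0 : polP φ P ≠ 0 := fun h => hP (polP_inj φ hφ (h.trans (map_zero _).symm))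
  have hspl : (polP φ P).Splits := IsAlgClosed.splits _
  have hCinj : Function.Injective (MvPolynomial.C : K →+* MvPolynomial S K) := MvPolynomial.C_injective _ _
  rw [Polynomial.resultant_eq_prod_eval _ _ _ (Polynomial.natDegree_map_le.trans hn) (hspl.map _),
    hspl.roots_map_of_injective hCinj] at h1
  rcases mul_eq_zero.1 h1 with h2 | h2
  · have h3 := eq_zero_of_pow_eq_zero h2
    rw [Polynomial.leadingCoeff_eq_zero] at h3
    exact hp0 ((Polynomial.map_injective _ hCinj) (h3.trans (Polynomial.map_zero _).symm))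
  · rw [Multiset.prod_eq_zero_iff, Multiset.map_map, Multiset.mem_map] at h2
    obtain ⟨α, -, hα⟩ := h2
    rw [Function.comp_apply, polG_eval] at hα
    have h4 := congrArg (subA (-fun s => ((g s).map φ).eval α)) hα
    rw [subA_subA, map_zero] at h4
    exact hQ (hinj (h4.trans (map_zero _).symm))

end nonzero

variable {U S : Type}

/-- the numbers `θ_u` and `β_s + g_s(z, θ)` -/
noncomputable def subV (g : S → Polynomial (MvPolynomial U ℤ)) (z : ℝ) (η : U ⊕ S → ℝ) : U ⊕ S → ℝ :=
  Sum.elim (fun u => η (Sum.inl u)) (fun s => ((g s).map (MvPolynomial.aeval (fun u => η (Sum.inl u)) :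
    MvPolynomial U ℤ →ₐ[ℤ] ℝ).toRingHom).eval z + η (Sum.inr s))

lemma polF_eval (z : ℝ) (η : U ⊕ S → ℝ) (P : MvPolynomial (Option U) ℤ) :
    ((polF (S := S) P).map (MvPolynomial.aeval η : MvPolynomial (U ⊕ S) ℤ →ₐ[ℤ] ℝ).toRingHom).eval z =
      MvPolynomial.aeval (fun o : Option U => o.elim z (fun u => η (Sum.inl u))) P := by
  have h : ((Polynomial.evalRingHom z).comp ((Polynomial.mapRingHom
      (MvPolynomial.aeval η : MvPolynomial (U ⊕ S) ℤ →ₐ[ℤ] ℝ).toRingHom).comp
      (MvPolynomial.aeval (fun o : Option U => o.elim Polynomial.X (fun u => Polynomial.C (MvPolynomial.X (Sum.inl u)))) :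
        MvPolynomial (Option U) ℤ →ₐ[ℤ] Polynomial (MvPolynomial (U ⊕ S) ℤ)).toRingHom)) =
      (MvPolynomial.aeval (fun o : Option U => o.elim z (fun u => η (Sum.inl u))) :
        MvPolynomial (Option U) ℤ →ₐ[ℤ] ℝ).toRingHom := by
    apply MvPolynomial.ringHom_ext
    · intro r
      simp
    · rintro (_ | u)
      · simp
      · simp
  exact congrArg (fun g => g P) h

lemma polG_eval' (g : S → Polynomial (MvPolynomial U ℤ)) (z : ℝ) (η : U ⊕ S → ℝ) (Q : MvPolynomial (U ⊕ S) ℤ) :
    ((polG g Q).map (MvPolynomial.aeval η : MvPolynomial (U ⊕ S) ℤ →ₐ[ℤ] ℝ).toRingHom).eval z =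
      MvPolynomial.aeval (subV g z η) Q := by
  have h : ((Polynomial.evalRingHom z).comp ((Polynomial.mapRingHom
      (MvPolynomial.aeval η : MvPolynomial (U ⊕ S) ℤ →ₐ[ℤ] ℝ).toRingHom).comp
      (MvPolynomial.aeval (Sum.elim (fun u => Polynomial.C (MvPolynomial.X (Sum.inl u)))
        (fun s => (g s).map inc + Polynomial.C (MvPolynomial.X (Sum.inr s)))) :
        MvPolynomial (U ⊕ S) ℤ →ₐ[ℤ] Polynomial (MvPolynomial (U ⊕ S) ℤ)).toRingHom)) =
      (MvPolynomial.aeval (subV g z η) : MvPolynomial (U ⊕ S) ℤ →ₐ[ℤ] ℝ).toRingHom := by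
    apply MvPolynomial.ringHom_ext
    · intro r
      simp
    · rintro (u | s)
      · simp [subV]
      · show Polynomial.eval z (Polynomial.map _ (MvPolynomial.aeval _ (MvPolynomial.X (Sum.inr s)))) =
          MvPolynomial.aeval (subV g z η) (MvPolynomial.X (Sum.inr s))
        rw [MvPolynomial.aeval_X, MvPolynomial.aeval_X, Sum.elim_inr, Polynomial.map_add, Polynomial.map_map,
          Polynomial.eval_add, Polynomial.map_C, Polynomial.eval_C, subV, Sum.elim_inr]
        congr 1
        · congr 2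
          apply MvPolynomial.ringHom_ext
          · intro r
            simp
          · intro u
            show MvPolynomial.aeval η (MvPolynomial.rename Sum.inl (MvPolynomial.X u)) = _
            rw [MvPolynomial.rename_X, MvPolynomial.aeval_X]
            show _ = MvPolynomial.aeval (fun u => η (Sum.inl u)) (MvPolynomial.X u)
            rw [MvPolynomial.aeval_X]
        · show MvPolynomial.aeval η (MvPolynomial.X (Sum.inr s)) = _
          rw [MvPolynomial.aeval_X]
  exact congrArg (fun g => g Q) h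

lemma polF_sum (P : MvPolynomial (Option U) ℤ) : polF (S := S) P =
    ∑ s ∈ P.support, Polynomial.C (MvPolynomial.C (P.coeff s)) * polF (MvPolynomial.monomial s 1) := by
  conv_lhs => rw [MvPolynomial.as_sum P, polF, map_sum]
  refine Finset.sum_congr rfl fun s _ => ?_
  have h : MvPolynomial.monomial s (MvPolynomial.coeff s P) =
      MvPolynomial.C (MvPolynomial.coeff s P) * MvPolynomial.monomial s (1 : ℤ) := by
    rw [MvPolynomial.C_mul_monomial, mul_one]
  rw [h, map_mul, polF]
  congr 1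
  rw [MvPolynomial.aeval_C]
  simp

lemma polG_sum (g : S → Polynomial (MvPolynomial U ℤ)) (Q : MvPolynomial (U ⊕ S) ℤ) : polG g Q =
    ∑ s ∈ Q.support, Polynomial.C (MvPolynomial.C (Q.coeff s)) * polG g (MvPolynomial.monomial s 1) := by
  conv_lhs => rw [MvPolynomial.as_sum Q, polG, map_sum]
  refine Finset.sum_congr rfl fun s _ => ?_
  have h : MvPolynomial.monomial s (MvPolynomial.coeff s Q) =
      MvPolynomial.C (MvPolynomial.coeff s Q) * MvPolynomial.monomial s (1 : ℤ) := by
    rw [MvPolynomial.C_mul_monomial, mul_one]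
  rw [h, map_mul, polG]
  congr 1
  rw [MvPolynomial.aeval_C]
  simp

/-- one step of the elimination: from polynomials `P`, `Q` whose values at `(z, θ)` and `(θ, β_s + g_s(z, θ))` are small
one gets a nonzero polynomial `F` whose value at `(θ, β)` is small -/
theorem elim_step [Fintype U] [Fintype S] (g : S → Polynomial (MvPolynomial U ℤ)) (z : ℝ) (η : U ⊕ S → ℝ) (d : ℕ) :
    ∃ (d' : ℕ) (K : ℝ) (κ : ℕ), 1 ≤ K ∧ ∀ (P : MvPolynomial (Option U) ℤ) (Q : MvPolynomial (U ⊕ S) ℤ), P ≠ 0 → Q ≠ 0 →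
      P.totalDegree ≤ d → Q.totalDegree ≤ d → ∀ H : ℝ, 1 ≤ H → (∀ s, |((P.coeff s : ℤ) : ℝ)| ≤ H) →
      (∀ s, |((Q.coeff s : ℤ) : ℝ)| ≤ H) →
      ∃ F : MvPolynomial (U ⊕ S) ℤ, F ≠ 0 ∧ F.totalDegree ≤ d' ∧ (∀ s, |((F.coeff s : ℤ) : ℝ)| ≤ K * H ^ κ) ∧
        ∀ E : ℝ, |MvPolynomial.aeval (fun o : Option U => o.elim z (fun u => η (Sum.inl u))) P| ≤ E →
          |MvPolynomial.aeval (subV g z η) Q| ≤ E →
          |MvPolynomial.aeval η F| ≤ K * H ^ κ * E := by
  classical
  obtain ⟨N1, D1, L1, hL1, h1⟩ := fam_bd' (ι := U ⊕ S) (fun s : Option U →₀ ℕ => polF (MvPolynomial.monomial s 1)) d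
  obtain ⟨N2, D2, L2, hL2, h2⟩ := fam_bd' (ι := U ⊕ S) (fun s : U ⊕ S →₀ ℕ => polG g (MvPolynomial.monomial s 1)) d
  obtain ⟨D, hD⟩ : ∃ D, D = D1 + D2 := ⟨_, rfl⟩
  obtain ⟨L, hL⟩ : ∃ L, L = L1 + L2 + 1 := ⟨_, rfl⟩
  obtain ⟨N, hN⟩ : ∃ N, N = N1 + N2 + 1 := ⟨_, rfl⟩
  obtain ⟨B, hB⟩ : ∃ B : ℝ, B = 1 + ∑ s, |η s| := ⟨_, rfl⟩
  obtain ⟨Z, hZ⟩ : ∃ Z : ℝ, Z = 1 + |z| := ⟨_, rfl⟩
  have hL1' : 1 ≤ L := by rw [hL]; linarith
  have hη0 : 0 ≤ ∑ s, |η s| := Finset.sum_nonneg fun _ _ => abs_nonneg _
  have hB1 : 1 ≤ B := by rw [hB]; linarith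
  have hZ1 : 1 ≤ Z := by rw [hZ]; have := abs_nonneg z; linarith
  have hηB : ∀ o : U ⊕ S, |η o| ≤ B := by
    intro s
    have h3 : |η s| ≤ ∑ s, |η s| := Finset.single_le_sum (f := fun s => |η s|) (fun _ _ => abs_nonneg _) (Finset.mem_univ s)
    rw [hB]
    linarith
  obtain ⟨K1, hK1⟩ : ∃ K1 : ℝ, K1 = N.factorial * L ^ N := ⟨_, rfl⟩
  obtain ⟨K2, hK2⟩ : ∃ K2 : ℝ, K2 = N * (Z ^ N * (N.factorial * (L * B ^ D) ^ N)) := ⟨_, rfl⟩
  have hK10 : 0 ≤ K1 := by rw [hK1]; positivity
  have hK20 : 0 ≤ K2 := by rw [hK2]; positivity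
  refine ⟨N * D, K1 + K2 + 1, N, by linarith, fun P Q hP hQ hPd hQd H hH hPH hQH => ?_⟩
  have hH0 : 0 ≤ H := by linarith
  obtain ⟨h3, h4⟩ := h1 P hPd H hH0 hPH
  obtain ⟨h5, h6⟩ := h2 Q hQd H hH0 hQH
  rw [← polF_sum] at h3 h4
  rw [← polG_sum] at h5 h6
  obtain ⟨f, hf⟩ : ∃ f, f = polF (S := S) P := ⟨_, rfl⟩
  obtain ⟨g', hg⟩ : ∃ g', g' = polG g Q := ⟨_, rfl⟩
  rw [← hf] at h3 h4
  rw [← hg] at h5 h6
  obtain ⟨m, hm⟩ : ∃ m, m = f.natDegree := ⟨_, rfl⟩
  obtain ⟨n, hn⟩ : ∃ n, n = g'.natDegree + 1 := ⟨_, rfl⟩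
  have hmn : m + n ≤ N := by omega
  have hmn0 : 0 < m + n := by omega
  have hLH : 1 ≤ L * H := one_le_mul_of_one_le_of_one_le hL1' hH
  -- bounds for the entries
  have hfD : ∀ j, (f.coeff j).totalDegree ≤ D := fun j => ((h4 j).1).trans (by omega)
  have hgD : ∀ j, (g'.coeff j).totalDegree ≤ D := fun j => ((h6 j).1).trans (by omega)
  have hfL : ∀ j, len (f.coeff j) ≤ L * H := fun j =>
    ((h4 j).2).trans (mul_le_mul_of_nonneg_right (by linarith) hH0)
  have hgL : ∀ j, len (g'.coeff j) ≤ L * H := fun j =>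
    ((h6 j).2).trans (mul_le_mul_of_nonneg_right (by linarith) hH0)
  have hentD : ∀ i j, (Polynomial.sylvester f g' m n i j).totalDegree ≤ D := by
    intro i j
    induction j using Fin.addCases with
    | left j₁ =>
      simp only [Polynomial.sylvester, Matrix.of_apply, Fin.addCases_left]
      split_ifs
      · exact hgD _
      · rw [MvPolynomial.totalDegree_zero]; exact Nat.zero_le _
    | right j₁ =>
      simp only [Polynomial.sylvester, Matrix.of_apply, Fin.addCases_right]
      split_ifs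
      · exact hfD _
      · rw [MvPolynomial.totalDegree_zero]; exact Nat.zero_le _
  have hentL : ∀ i j, len (Polynomial.sylvester f g' m n i j) ≤ L * H := by
    intro i j
    induction j using Fin.addCases with
    | left j₁ =>
      simp only [Polynomial.sylvester, Matrix.of_apply, Fin.addCases_left]
      split_ifs
      · exact hgL _
      · rw [len_zero]; linarith
    | right j₁ =>
      simp only [Polynomial.sylvester, Matrix.of_apply, Fin.addCases_right]
      split_ifs
      · exact hfL _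
      · rw [len_zero]; linarith
  have hfac : ((m + n).factorial : ℝ) ≤ N.factorial := by exact_mod_cast Nat.factorial_le hmn
  have hHN : (0 : ℝ) ≤ H ^ N := by positivity
  refine ⟨Polynomial.resultant f g' m n, ?_, ?_, fun s => ?_, fun E hPE hQE => ?_⟩
  · -- nonvanishing
    have hφ1 : Function.Injective (algebraMap (MvPolynomial U ℤ) (FractionRing (MvPolynomial U ℤ))) :=
      IsFractionRing.injective _ _
    have hφ2 : Function.Injective (algebraMap (FractionRing (MvPolynomial U ℤ))
        (AlgebraicClosure (FractionRing (MvPolynomial U ℤ)))) := RingHom.injective _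
    have hφ : Function.Injective ((algebraMap (FractionRing (MvPolynomial U ℤ))
        (AlgebraicClosure (FractionRing (MvPolynomial U ℤ)))).comp
        (algebraMap (MvPolynomial U ℤ) (FractionRing (MvPolynomial U ℤ)))) := hφ2.comp hφ1
    have h7 := res_ne_zero _ hφ hP g hQ (n := n) (by rw [← hg]; omega)
    rw [← hg, ← hf, ← hm] at h7
    exact h7
  · refine (totalDegree_det _ hentD).trans ?_
    exact Nat.mul_le_mul_right _ hmn
  · refine (abs_coeff_le_len _ s).trans ((len_det _ hentL).trans ?_)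
    calc ((m + n).factorial : ℝ) * (L * H) ^ (m + n) ≤ N.factorial * (L * H) ^ N :=
          mul_le_mul hfac (pow_le_pow_right₀ hLH hmn) (by positivity) (by positivity)
      _ = K1 * H ^ N := by rw [hK1, mul_pow]; ring
      _ ≤ (K1 + K2 + 1) * H ^ N := mul_le_mul_of_nonneg_right (by linarith) hHN
  · have hE0 : 0 ≤ E := (abs_nonneg _).trans hPE
    obtain ⟨φ, hφ⟩ : ∃ φ : MvPolynomial (U ⊕ S) ℤ →+* ℝ, φ = (MvPolynomial.aeval η :
      MvPolynomial (U ⊕ S) ℤ →ₐ[ℤ] ℝ).toRingHom := ⟨_, rfl⟩
    have h7 : MvPolynomial.aeval η (Polynomial.resultant f g' m n) =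
        Polynomial.resultant (f.map φ) (g'.map φ) m n := by
      rw [Polynomial.resultant_map_map, hφ]
      rfl
    have hX1 : 1 ≤ L * B ^ D * H := by
      have h8 : 1 ≤ L * B ^ D := one_le_mul_of_one_le_of_one_le hL1' (one_le_pow₀ hB1)
      exact one_le_mul_of_one_le_of_one_le h8 hH
    have hcoef : ∀ (p : Polynomial (MvPolynomial (U ⊕ S) ℤ)), (∀ j, (p.coeff j).totalDegree ≤ D) →
        (∀ j, len (p.coeff j) ≤ L * H) → ∀ j, |(p.map φ).coeff j| ≤ L * B ^ D * H := by
      intro p hp1 hp2 j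
      rw [Polynomial.coeff_map, hφ]
      have h8 := aeval_le hB1 hηB (p.coeff j) (hp1 j)
      refine h8.trans ?_
      calc len (p.coeff j) * B ^ D ≤ L * H * B ^ D := mul_le_mul_of_nonneg_right (hp2 j) (by positivity)
        _ = L * B ^ D * H := by ring
    rw [h7]
    refine (det_syl_le (f.map φ) (g'.map φ) hmn0 (Polynomial.natDegree_map_le.trans (by omega))
      (Polynomial.natDegree_map_le.trans (by omega)) z hX1 (hcoef f hfD hfL) (hcoef g' hgD hgL) hZ1
      (by rw [hZ]; linarith) (E := E) ?_ ?_).trans ?_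
    · rw [hφ, hf, polF_eval]; exact hPE
    · rw [hφ, hg, polG_eval']; exact hQE
    · have h9 : ((m + n : ℕ) : ℝ) ≤ N := by exact_mod_cast hmn
      calc ((m + n : ℕ) : ℝ) * (Z ^ (m + n) * E * ((m + n).factorial * (L * B ^ D * H) ^ (m + n)))
          ≤ N * (Z ^ N * E * (N.factorial * (L * B ^ D * H) ^ N)) := by
            refine mul_le_mul h9 ?_ (by positivity) (by positivity)
            refine mul_le_mul ?_ ?_ (by positivity) (by positivity)
            · exact mul_le_mul_of_nonneg_right (pow_le_pow_right₀ hZ1 hmn) hE0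
            · exact mul_le_mul hfac (pow_le_pow_right₀ hX1 hmn) (by positivity) (by positivity)
        _ = K2 * H ^ N * E := by rw [hK2, mul_pow (L * B ^ D)]; ring
        _ ≤ (K1 + K2 + 1) * H ^ N * E := by
            refine mul_le_mul_of_nonneg_right ?_ hE0
            exact mul_le_mul_of_nonneg_right (by linarith) hHN

end Pool.Agent.Helper98.AM
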