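import Mathlib
import Pool.Agent.Helper98.AM.Elim
import Pool.Graph.R_pool_sql_team_seeded_b677cdb8.E8helper79.ZM.Cor

/-!
# The joint measure for numbers `z_i` and numbers `θ_u`, `β_s + g_s(z_i, θ)`
-/

set_option autoImplicit false

namespace Pool.Agent.Helper98.AM

open Pool.Agent.E8helper79.ZM hiding polG polG_eval polG_eval' polG_sum res_ne_zero elim_step subA subA_subA polF
  psiA psiA_none psiA_some psiA_inj polP polP_inj polP_zero polP_one polF_map polF_eval polF_sum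
open MvPolynomial

variable {U S ι : Type}

/-- the value of `g_s` at `z`, with the coefficients evaluated at `θ` -/
noncomputable def gval (g : Polynomial (MvPolynomial U ℤ)) (z : ℝ) (θ : U → ℝ) : ℝ :=
  (g.map (aeval θ : MvPolynomial U ℤ →ₐ[ℤ] ℝ).toRingHom).eval z

/-- the numbers `θ_u`, and `β_s + g_s(z_i, θ)` if `i = c s` is in `A`, `β_s` otherwise -/
noncomputable def famA [DecidableEq ι] (c : S → ι) (g : S → Polynomial (MvPolynomial U ℤ)) (z : ι → ℝ) (η : U ⊕ S → ℝ)
    (A : Finset ι) : U ⊕ S → ℝ :=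
  Sum.elim (fun u => η (Sum.inl u)) (fun s => if c s ∈ A then gval (g s) (z (c s)) (fun u => η (Sum.inl u)) +
    η (Sum.inr s) else η (Sum.inr s))

lemma famA_insert [DecidableEq ι] (c : S → ι) (g : S → Polynomial (MvPolynomial U ℤ)) (z : ι → ℝ) (η : U ⊕ S → ℝ)
    {A : Finset ι} {a : ι} (ha : a ∉ A) :
    subV (fun s => if c s = a then g s else 0) (z a) (famA c g z η A) = famA c g z η (insert a A) := by
  funext s
  rcases s with s | s
  · rfl
  · simp only [subV, famA, Sum.elim_inr, Sum.elim_inl]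
    by_cases h : c s = a
    · rw [if_pos h, h, if_neg ha, if_pos (Finset.mem_insert_self _ _)]
      rfl
    · rw [if_neg h, Polynomial.map_zero, Polynomial.eval_zero, zero_add]
      by_cases h2 : c s ∈ A
      · rw [if_pos h2, if_pos (Finset.mem_insert_of_mem h2)]
      · rw [if_neg h2, if_neg (fun h3 => (Finset.mem_insert.1 h3).elim h h2)]

theorem lin_aux [Fintype U] [Fintype S] [DecidableEq ι] (c : S → ι) (g : S → Polynomial (MvPolynomial U ℤ)) (z : ι → ℝ)
    (η : U ⊕ S → ℝ) (hPM : PM η) (A : Finset ι) : ∀ d : ℕ, ∃ C : ℝ, 0 < C ∧ ∃ κ : ℕ,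
    ∀ (P : ι → MvPolynomial (Option U) ℤ) (Q : MvPolynomial (U ⊕ S) ℤ),
      (∀ k ∈ A, P k ≠ 0) → Q ≠ 0 → (∀ k ∈ A, (P k).totalDegree ≤ d) → Q.totalDegree ≤ d → ∀ H : ℝ, 1 ≤ H →
      (∀ k ∈ A, ∀ s, |(((P k).coeff s : ℤ) : ℝ)| ≤ H) → (∀ s, |((Q.coeff s : ℤ) : ℝ)| ≤ H) →
      ∀ E : ℝ, (∀ k ∈ A, |aeval (fun o : Option U => o.elim (z k) (fun u => η (Sum.inl u))) (P k)| ≤ E) →
        |aeval (famA c g z η A) Q| ≤ E → C / H ^ κ ≤ E := by
  classical
  induction A using Finset.induction_on with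
  | empty =>
    intro d
    obtain ⟨C, hC, κ, h1⟩ := hPM d
    refine ⟨C, hC, κ, fun P Q _ hQ _ hQd H hH _ hQH E _ hQE => ?_⟩
    refine (h1 Q hQ hQd H hH hQH).trans ?_
    have h2 : famA c g z η ∅ = η := by
      funext s
      rcases s with s | s
      · rfl
      · simp [famA]
    rw [h2] at hQE
    exact hQE
  | insert a A ha ih =>
    intro d
    obtain ⟨d', K, κ₁, hK, h1⟩ := elim_step (fun s => if c s = a then g s else 0) (z a) (famA c g z η A) d
    obtain ⟨c₂, hc₂, κ₂, h2⟩ := ih (max d d')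
    refine ⟨c₂ / K ^ (κ₂ + 1), by positivity, (κ₁ + 1) * (κ₂ + 1),
      fun P Q hP hQ hPd hQd H hH hPH hQH E hPE hQE => ?_⟩
    have haA := Finset.mem_insert_self a A
    obtain ⟨F, hF0, hFd, hFH, hFE⟩ := h1 (P a) Q (hP a haA) hQ (hPd a haA) hQd H hH (hPH a haA) hQH
    have hE0 : 0 ≤ E := (abs_nonneg _).trans hQE
    have hFE' := hFE E (hPE a haA) (by rw [famA_insert c g z η ha]; exact hQE)
    have hH0 : 0 < H := by linarith
    have hKH : 1 ≤ K * H ^ κ₁ := one_le_mul_of_one_le_of_one_le hK (one_le_pow₀ hH)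
    obtain ⟨H', hH'⟩ : ∃ H', H' = K * H ^ κ₁ * H := ⟨_, rfl⟩
    have hH'1 : 1 ≤ H' := by rw [hH']; exact one_le_mul_of_one_le_of_one_le hKH hH
    have hHH' : H ≤ H' := by rw [hH']; exact le_mul_of_one_le_left hH0.le hKH
    have hKH' : K * H ^ κ₁ ≤ H' := by rw [hH']; exact le_mul_of_one_le_right (by linarith) hH
    have h3 := h2 P F (fun k hk => hP k (Finset.mem_insert_of_mem hk)) hF0
      (fun k hk => (hPd k (Finset.mem_insert_of_mem hk)).trans (le_max_left _ _)) (hFd.trans (le_max_right _ _)) H' hH'1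
      (fun k hk s => (hPH k (Finset.mem_insert_of_mem hk) s).trans hHH') (fun s => (hFH s).trans hKH') (H' * E)
      (fun k hk => (hPE k (Finset.mem_insert_of_mem hk)).trans (le_mul_of_one_le_left hE0 hH'1))
      (hFE'.trans (mul_le_mul_of_nonneg_right hKH' hE0))
    have hH'0 : 0 < H' := by linarith
    rw [div_le_iff₀ (by positivity)] at h3
    rw [div_div, div_le_iff₀ (by positivity)]
    calc c₂ ≤ H' * E * H' ^ κ₂ := h3
      _ = E * H' ^ (κ₂ + 1) := by ring
      _ = E * (K ^ (κ₂ + 1) * H ^ ((κ₁ + 1) * (κ₂ + 1))) := by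
          rw [hH', pow_mul H, ← mul_pow]
          ring

/-- **The joint measure** -/
theorem lin_joint [Fintype U] [Fintype S] [Fintype ι] (c : S → ι) (g : S → Polynomial (MvPolynomial U ℤ)) (z : ι → ℝ)
    (η : U ⊕ S → ℝ) (hPM : PM η) : ∀ d : ℕ, ∃ C : ℝ, 0 < C ∧ ∃ κ : ℕ,
    ∀ (P : ι → MvPolynomial (Option U) ℤ) (Q : MvPolynomial (U ⊕ S) ℤ),
      (∀ k, P k ≠ 0) → Q ≠ 0 → (∀ k, (P k).totalDegree ≤ d) → Q.totalDegree ≤ d → ∀ H : ℝ, 1 ≤ H →
      (∀ k, ∀ s, |(((P k).coeff s : ℤ) : ℝ)| ≤ H) → (∀ s, |((Q.coeff s : ℤ) : ℝ)| ≤ H) →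
      (∃ k, C / H ^ κ ≤ |aeval (fun o : Option U => o.elim (z k) (fun u => η (Sum.inl u))) (P k)|) ∨
        C / H ^ κ ≤ |aeval (Sum.elim (fun u => η (Sum.inl u))
          (fun s => gval (g s) (z (c s)) (fun u => η (Sum.inl u)) + η (Sum.inr s))) Q| := by
  classical
  intro d
  obtain ⟨C, hC, κ, h1⟩ := lin_aux c g z η hPM Finset.univ d
  refine ⟨C, hC, κ, fun P Q hP hQ hPd hQd H hH hPH hQH => ?_⟩
  have hfam : famA c g z η Finset.univ = Sum.elim (fun u => η (Sum.inl u))
          (fun s => gval (g s) (z (c s)) (fun u => η (Sum.inl u)) + η (Sum.inr s)) := by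
    funext s
    rcases s with s | s
    · rfl
    · simp [famA]
  rw [← hfam]
  obtain ⟨q, hq⟩ : ∃ q, q = |aeval (famA c g z η Finset.univ) Q| := ⟨_, rfl⟩
  obtain ⟨W, hW⟩ : ∃ W, W = insert q (Finset.univ.image fun k =>
    |aeval (fun o : Option U => o.elim (z k) (fun u => η (Sum.inl u))) (P k)|) := ⟨_, rfl⟩
  have hne : W.Nonempty := by rw [hW]; exact Finset.insert_nonempty _ _
  have hmax := W.max'_mem hne
  have h2 := h1 P Q (fun k _ => hP k) hQ (fun k _ => hPd k) hQd H hH (fun k _ => hPH k) hQH (W.max' hne)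
    (fun k hk => W.le_max' _ (by rw [hW]; exact Finset.mem_insert_of_mem (Finset.mem_image_of_mem _ hk)))
    (by
      rw [← hq]
      exact W.le_max' _ (by rw [hW]; exact Finset.mem_insert_self _ _))
  have hmem : ∀ x ∈ W, x = q ∨ ∃ k, |aeval (fun o : Option U => o.elim (z k) (fun u => η (Sum.inl u))) (P k)| = x := by
    intro x hx
    rw [hW, Finset.mem_insert, Finset.mem_image] at hx
    rcases hx with hx | ⟨k, -, hk⟩
    · exact Or.inl hx
    · exact Or.inr ⟨k, hk⟩
  rw [← hq]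
  rcases hmem _ hmax with h3 | ⟨k, h3⟩
  · right
    rw [h3] at h2
    exact h2
  · left
    refine ⟨k, ?_⟩
    rw [h3]
    exact h2

/-- a measure implies algebraic independence -/
lemma PM_AI {κ : Type} {η : κ → ℝ} (h : PM η) : AlgebraicIndependent ℚ η := by
  by_contra hcon
  obtain ⟨Q, hQ, h0⟩ := exists_rel hcon
  exact h.ne_zero hQ h0

/-- algebraic independence from the number of elements -/
lemma AI_of_card {ι κ : Type} [Fintype ι] [Fintype κ] {θ : ι → ℝ} (h : AlgebraicIndependent ℚ θ) {η : κ → ℝ}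
    (hm : ∀ i, θ i ∈ IntermediateField.adjoin ℚ (Set.range η)) (hc : Fintype.card κ ≤ Fintype.card ι) :
    AlgebraicIndependent ℚ η := by
  classical
  obtain ⟨K, hK⟩ : ∃ K, K = IntermediateField.adjoin ℚ (Set.range η) := ⟨_, rfl⟩
  have hη : ∀ k, η k ∈ K := fun k => by rw [hK]; exact IntermediateField.subset_adjoin _ _ ⟨k, rfl⟩
  rw [← hK] at hm
  let η' : κ → K := fun k => ⟨η k, hη k⟩
  let θ' : ι → K := fun i => ⟨θ i, hm i⟩
  have hθ' : AlgebraicIndependent ℚ θ' := by
    apply AlgebraicIndependent.of_comp (K.val.restrictScalars ℚ)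
    exact h
  have hle := hθ'.cardinalMk_le_trdeg
  have halg : Algebra.IsAlgebraic (Algebra.adjoin ℚ (Set.range η')) K := by
    refine ⟨fun x => ?_⟩
    obtain ⟨x, hx⟩ := x
    have key : ∀ y (hy : y ∈ IntermediateField.adjoin ℚ (Set.range η)),
        IsAlgebraic (Algebra.adjoin ℚ (Set.range η')) (⟨y, by rw [hK]; exact hy⟩ : K) := by
      intro y hy
      induction hy using IntermediateField.adjoin_induction with
      | mem x hx =>
        obtain ⟨k, rfl⟩ := hx
        exact isAlgebraic_algebraMap (⟨η' k, Algebra.subset_adjoin ⟨k, rfl⟩⟩ : Algebra.adjoin ℚ (Set.range η'))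
      | algebraMap r =>
        exact isAlgebraic_algebraMap (algebraMap ℚ (Algebra.adjoin ℚ (Set.range η')) r)
      | add x y _ _ hx hy => exact hx.add hy
      | inv x _ hx => exact hx.inv
      | mul x y _ _ hx hy => exact hx.mul hy
    exact key x (by rw [← hK]; exact hx)
  have hb := Algebra.IsAlgebraic.isTranscendenceBasis_of_le_trdeg_of_finite ℚ η' (by
    refine le_trans ?_ hle
    rw [Cardinal.mk_fintype, Cardinal.mk_fintype]
    exact_mod_cast hc)
  have h2 := hb.1.map' (f := K.val.restrictScalars ℚ) K.val.injective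
  exact h2

/-- transfer of a measure to another family of generators of the same field -/
lemma PM_birat {ι κ : Type} [Fintype ι] [Fintype κ] {θ : ι → ℝ} (h : PM θ) {η : κ → ℝ}
    (hm : ∀ i, θ i ∈ IntermediateField.adjoin ℚ (Set.range η)) (hc : Fintype.card κ ≤ Fintype.card ι)
    (hm' : ∀ k, η k ∈ IntermediateField.adjoin ℚ (Set.range θ)) : PM η :=
  h.adjoin (AI_of_card (PM_AI h) hm hc) hm'

end Pool.Agent.Helper98.AM
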