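import Mathlib
import Pool.Agent.Helper98.AM.Gen

/-!
# The joint measure for several blocks of numbers `z_i`, `z_i x_s - y_s`
-/

set_option autoImplicit false

namespace Pool.Agent.Helper98.AM

open Pool.Agent.E8helper79.ZM hiding polG polG_eval polG_eval' polG_sum res_ne_zero elim_step subA subA_subA polF
  psiA psiA_none psiA_some psiA_inj polP polP_inj polP_zero polP_one polF_map polF_eval polF_sum
open MvPolynomial

/-- a change of the exponents of a polynomial -/
lemma reidx {κ : Type} [Fintype κ] {d D : ℕ} (M : (κ →₀ ℕ) → (κ →₀ ℕ))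
    (hM : ∀ k k' : κ →₀ ℕ, M k = M k' → k = k') (hD : ∀ k : κ →₀ ℕ, ∑ j, k j ≤ d → ∑ j, M k j ≤ D)
    (θ θ' : κ → ℝ) (δ : ℝ) (hθ : ∀ k : κ →₀ ℕ, ∑ j, k j ≤ d → ∏ j, θ' j ^ M k j = δ * ∏ j, θ j ^ k j)
    (P : MvPolynomial κ ℤ) (hP : P ≠ 0) (hd : P.totalDegree ≤ d) {H : ℝ} (hH : 0 ≤ H)
    (hPH : ∀ s, |((P.coeff s : ℤ) : ℝ)| ≤ H) :
    ∃ P' : MvPolynomial κ ℤ, P' ≠ 0 ∧ P'.totalDegree ≤ D ∧ (∀ s, |((P'.coeff s : ℤ) : ℝ)| ≤ H) ∧
      aeval θ' P' = δ * aeval θ P := by
  classical
  have hmem : ∀ s ∈ P.support, ∑ i, s i ≤ d := by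
    intro s hs
    have h2 := (le_totalDegree hs).trans hd
    rwa [Finsupp.sum_fintype _ _ (fun _ => rfl)] at h2
  obtain ⟨P', hP'⟩ : ∃ P' : MvPolynomial κ ℤ, P' = ∑ s ∈ P.support, monomial (M s) (P.coeff s) := ⟨_, rfl⟩
  have hc1 : ∀ s, P'.coeff (M s) = P.coeff s := by
    intro s
    rw [hP', coeff_sum]
    simp only [coeff_monomial]
    by_cases hs : s ∈ P.support
    · rw [Finset.sum_eq_single s]
      · rw [if_pos rfl]
      · intro t _ ht
        rw [if_neg (fun h => ht (hM _ _ h))]
      · intro h; exact absurd hs h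
    · rw [Finset.sum_eq_zero, notMem_support_iff.1 hs]
      intro t ht
      rw [if_neg]
      intro h
      rw [hM _ _ h] at ht
      exact hs ht
  have hc2 : ∀ t, (∀ s, M s ≠ t) → P'.coeff t = 0 := by
    intro t ht
    rw [hP', coeff_sum]
    simp only [coeff_monomial]
    exact Finset.sum_eq_zero fun s _ => if_neg (ht s)
  refine ⟨P', ?_, ?_, ?_, ?_⟩
  · intro h
    apply hP
    ext s
    rw [← hc1 s, h, coeff_zero, coeff_zero]
  · rw [hP']
    refine totalDegree_finsetSum_le fun s hs => ?_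
    refine (totalDegree_monomial_le _ _).trans ?_
    rw [Finsupp.sum_fintype _ _ (fun _ => rfl)]
    exact hD s (hmem s hs)
  · intro t
    by_cases h : ∃ s, M s = t
    · obtain ⟨s, rfl⟩ := h
      rw [hc1]; exact hPH s
    · push Not at h
      rw [hc2 t h]
      simpa using hH
  · rw [hP', map_sum]
    conv_rhs => rw [as_sum P, map_sum, Finset.mul_sum]
    refine Finset.sum_congr rfl fun s hs => ?_
    rw [aeval_monomial, aeval_monomial, Finsupp.prod_fintype _ _ (fun i => pow_zero _),
      Finsupp.prod_fintype _ _ (fun i => pow_zero _), hθ s (hmem s hs)]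
    ring

section

variable {σ ι : Type} (c : σ → ι) (z : ι → ℝ) (x y : σ → ℝ)

/-- the numbers `z_i` and `z_i x_s - y_s` -/
noncomputable def vv : ι ⊕ σ → ℝ := Sum.elim z (fun s => z (c s) * x s - y s)

/-- the block of a number -/
def bl : ι ⊕ σ → ι := Sum.elim id c

variable (b : ι → ι ⊕ σ)

/-- the indices different from the chosen ones -/
abbrev Rest := {o : ι ⊕ σ // o ≠ b (bl c o)}

/-- the multiplier `1` or `x_{s₀}` of a block -/
noncomputable def mu (i : ι) : ℝ := Sum.elim (fun _ => 1) x (b i)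

/-- the exponents of the multiplier -/
noncomputable def mex (i : ι) : σ →₀ ℕ := Sum.elim (fun _ => 0) (fun s => Finsupp.single s 1) (b i)

/-- the constant terms -/
noncomputable def be (o : Rest c b) : ℝ :=
  Sum.elim (fun _ => Sum.elim (fun _ => 0) y (b (bl c o.1)))
    (fun s => Sum.elim (fun _ => - y s) (fun s₀ => y s₀ * x s - x s₀ * y s) (b (bl c o.1))) o.1

/-- the polynomials `Y` or `X_s Y` -/
noncomputable def gg (o : Rest c b) : Polynomial (MvPolynomial (Option σ) ℤ) :=
  Sum.elim (fun _ => Polynomial.X) (fun s => Polynomial.C (X (some s)) * Polynomial.X) o.1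

variable {c b}

lemma gg_eval (hb : ∀ i, bl c (b i) = i) (w : ℝ) (o : Rest c b) :
    gval (gg c b o) (vv c z x y (b (bl c o.1))) (fun u : Option σ => u.elim w x) + be c x y b o =
      mu x b (bl c o.1) * vv c z x y o.1 := by
  obtain ⟨o, ho⟩ := o
  rcases o with i | s
  · have h1 : bl c (Sum.inl i : ι ⊕ σ) = i := rfl
    simp only [gval, gg, be, mu, h1, Sum.elim_inl, Polynomial.map_X, Polynomial.eval_X]
    have hbi := hb i
    have ho' : b i ≠ Sum.inl i := fun h => ho h.symm
    revert hbi ho'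
    rcases b i with j | s₀
    · intro hbi ho'
      exfalso
      apply ho'
      rw [show j = i from hbi]
    · intro hbi ho'
      simp only [vv, Sum.elim_inr, Sum.elim_inl]
      rw [show c s₀ = i from hbi]
      ring
  · have h1 : bl c (Sum.inr s : ι ⊕ σ) = c s := rfl
    simp only [gval, gg, be, mu, h1, Sum.elim_inr, Polynomial.map_mul, Polynomial.map_C, Polynomial.map_X,
      Polynomial.eval_mul, Polynomial.eval_C, Polynomial.eval_X]
    have h2 : ((aeval (fun u : Option σ => u.elim w x) : MvPolynomial (Option σ) ℤ →ₐ[ℤ] ℝ).toRingHom)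
        (X (some s)) = x s := by
      show aeval (fun u : Option σ => u.elim w x) (X (some s)) = x s
      rw [aeval_X]; rfl
    rw [h2]
    have hbi := hb (c s)
    have ho' : b (c s) ≠ Sum.inr s := fun h => ho h.symm
    revert hbi ho'
    rcases b (c s) with j | s₀
    · intro hbi ho'
      simp only [vv, Sum.elim_inr, Sum.elim_inl]
      rw [show j = c s from hbi]
      ring
    · intro hbi ho'
      simp only [vv, Sum.elim_inr]
      rw [show c s₀ = c s from hbi]
      ring

lemma card_Rest [Fintype σ] [Fintype ι] [Fintype (Rest c b)] (hb : ∀ i, bl c (b i) = i) :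
    Fintype.card (Rest c b) ≤ Fintype.card σ := by
  have h := Fintype.card_le_of_injective (Sum.elim (fun o : Rest c b => o.1) b) (by
    rintro (o | i) (o' | i') h
    · exact congrArg Sum.inl (Subtype.ext h)
    · exfalso
      simp only [Sum.elim_inl, Sum.elim_inr] at h
      apply o.2
      rw [h, hb]
    · exfalso
      simp only [Sum.elim_inl, Sum.elim_inr] at h
      apply o'.2
      rw [← h, hb]
    · simp only [Sum.elim_inr] at h
      rw [← hb i, ← hb i', h])
  rw [Fintype.card_sum, Fintype.card_sum] at h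
  omega

/-- the measure for `θ` and the constant terms -/
lemma be_PM [Fintype σ] [Fintype ι] (hb : ∀ i, bl c (b i) = i) (w : ℝ)
    (h : PM (fun o : Option (σ ⊕ σ) => o.elim w (Sum.elim x y))) :
    PM (Sum.elim (fun u : Option σ => u.elim w x) (be c x y b)) := by
  classical
  have hx0 : ∀ s, x s ≠ 0 := by
    intro s
    have h1 := h.ne_zero (P := X (some (Sum.inl s))) (X_ne_zero _)
    rwa [aeval_X] at h1
  obtain ⟨F, hF⟩ : ∃ F, F = IntermediateField.adjoin ℚ
    (Set.range (Sum.elim (fun u : Option σ => u.elim w x) (be c x y b))) := ⟨_, rfl⟩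
  have hFm : ∀ o, Sum.elim (fun u : Option σ => u.elim w x) (be c x y b) o ∈ F := fun o => by
    rw [hF]; exact IntermediateField.subset_adjoin _ _ ⟨o, rfl⟩
  obtain ⟨G, hG⟩ : ∃ G, G = IntermediateField.adjoin ℚ
    (Set.range (fun o : Option (σ ⊕ σ) => o.elim w (Sum.elim x y))) := ⟨_, rfl⟩
  have hGm : ∀ o, (fun o : Option (σ ⊕ σ) => o.elim w (Sum.elim x y)) o ∈ G := fun o => by
    rw [hG]; exact IntermediateField.subset_adjoin _ _ ⟨o, rfl⟩
  have hFx : ∀ s, x s ∈ F := fun s => hFm (Sum.inl (some s))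
  have hGx : ∀ s, x s ∈ G := fun s => hGm (some (Sum.inl s))
  have hGy : ∀ s, y s ∈ G := fun s => hGm (some (Sum.inr s))
  refine PM_birat h ?_ ?_ ?_
  · rw [← hF]
    rintro (_ | s | s)
    · exact hFm (Sum.inl none)
    · exact hFx s
    · show y s ∈ F
      -- the number `y_s`
      rcases hbi : b (c s) with j | s₀
      · have hj : j = c s := by have := hb (c s); rw [hbi] at this; exact this
        have ho : (Sum.inr s : ι ⊕ σ) ≠ b (bl c (Sum.inr s)) := by
          show (Sum.inr s : ι ⊕ σ) ≠ b (c s)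
          rw [hbi]; exact Sum.inr_ne_inl
        have h1 := hFm (Sum.inr ⟨Sum.inr s, ho⟩)
        have h2 : Sum.elim (fun u : Option σ => u.elim w x) (be c x y b) (Sum.inr ⟨Sum.inr s, ho⟩) = - y s := by
          show be c x y b ⟨Sum.inr s, ho⟩ = - y s
          have h3 : b (bl c (Sum.inr s)) = Sum.inl j := hbi
          simp only [be, Sum.elim_inr, h3, Sum.elim_inl]
        rw [h2] at h1
        simpa using F.neg_mem h1
      · have hs0 : c s₀ = c s := by have := hb (c s); rw [hbi] at this; exact this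
        have ho : (Sum.inl (c s) : ι ⊕ σ) ≠ b (bl c (Sum.inl (c s))) := by
          show (Sum.inl (c s) : ι ⊕ σ) ≠ b (c s)
          rw [hbi]; exact Sum.inl_ne_inr
        have h1 := hFm (Sum.inr ⟨Sum.inl (c s), ho⟩)
        have h2 : Sum.elim (fun u : Option σ => u.elim w x) (be c x y b) (Sum.inr ⟨Sum.inl (c s), ho⟩) = y s₀ := by
          show be c x y b ⟨Sum.inl (c s), ho⟩ = y s₀
          have h3 : b (bl c (Sum.inl (c s))) = Sum.inr s₀ := hbi
          simp only [be, Sum.elim_inr, h3, Sum.elim_inl]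
        rw [h2] at h1
        by_cases hss : s = s₀
        · rw [hss]; exact h1
        · have ho' : (Sum.inr s : ι ⊕ σ) ≠ b (bl c (Sum.inr s)) := by
            show (Sum.inr s : ι ⊕ σ) ≠ b (c s)
            rw [hbi]
            intro h4
            exact hss (Sum.inr_injective h4)
          have h4 := hFm (Sum.inr ⟨Sum.inr s, ho'⟩)
          have h5 : Sum.elim (fun u : Option σ => u.elim w x) (be c x y b) (Sum.inr ⟨Sum.inr s, ho'⟩) =
              y s₀ * x s - x s₀ * y s := by
            show be c x y b ⟨Sum.inr s, ho'⟩ = _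
            have h3 : b (bl c (Sum.inr s)) = Sum.inr s₀ := hbi
            simp only [be, Sum.elim_inr, h3]
          rw [h5] at h4
          have h6 : y s = (y s₀ * x s - (y s₀ * x s - x s₀ * y s)) / x s₀ := by
            rw [eq_div_iff (hx0 s₀)]; ring
          rw [h6]
          exact F.div_mem (F.sub_mem (F.mul_mem h1 (hFx s)) h4) (hFx s₀)
  · have h1 := card_Rest (c := c) (b := b) hb
    rw [Fintype.card_sum, Fintype.card_option, Fintype.card_option, Fintype.card_sum]
    omega
  · rw [← hG]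
    rintro ((_ | s) | o)
    · exact hGm none
    · exact hGx s
    · show be c x y b o ∈ G
      obtain ⟨o, ho⟩ := o
      rcases o with i | s
      · simp only [be, Sum.elim_inl]
        rcases b (bl c (Sum.inl i)) with j | s₀
        · exact G.zero_mem
        · exact hGy s₀
      · simp only [be, Sum.elim_inr]
        rcases b (bl c (Sum.inr s)) with j | s₀
        · exact G.neg_mem (hGy s)
        · exact G.sub_mem (G.mul_mem (hGy s₀) (hGx s)) (G.mul_mem (hGx s₀) (hGy s))

/-- the change of the exponents -/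
noncomputable def Mx [Fintype σ] [Fintype ι] [Fintype (Rest c b)] [DecidableEq ι] (d : ℕ)
    (k : (Option σ ⊕ Rest c b) →₀ ℕ) : (Option σ ⊕ Rest c b) →₀ ℕ :=
  Finsupp.equivFunOnFinite.symm (Sum.elim (fun u : Option σ => k (Sum.inl u) +
    u.elim 0 (fun s => ∑ i, (d - ∑ o : Rest c b, if bl c o.1 = i then k (Sum.inr o) else 0) * mex b i s))
    (fun o => k (Sum.inr o)))

lemma Mx_inj [Fintype σ] [Fintype ι] [Fintype (Rest c b)] [DecidableEq ι] (d : ℕ)
    (k k' : (Option σ ⊕ Rest c b) →₀ ℕ) (h : Mx d k = Mx d k') : k = k' := by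
  have h1 : ∀ o : Rest c b, k (Sum.inr o) = k' (Sum.inr o) := fun o => by
    have := DFunLike.congr_fun h (Sum.inr o)
    simpa [Mx] using this
  ext j
  rcases j with u | o
  · have := DFunLike.congr_fun h (Sum.inl u)
    simp only [Mx, Finsupp.equivFunOnFinite_symm_apply_apply, Sum.elim_inl, h1] at this
    omega
  · exact h1 o

lemma prod_mex [Fintype σ] (θ : σ → ℝ) (i : ι) (n : ℕ) : ∏ s, θ s ^ (n * mex b i s) = mu θ b i ^ n := by
  classical
  simp only [mex, mu]
  rcases b i with j | s₀
  · simp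
  · simp only [Sum.elim_inr]
    rw [Finset.prod_eq_single s₀]
    · simp
    · intro s _ hs
      rw [Finsupp.single_apply, if_neg hs.symm, mul_zero, pow_zero]
    · intro h; exact absurd (Finset.mem_univ _) h

lemma Mx_prod [Fintype σ] [Fintype ι] [Fintype (Rest c b)] [DecidableEq ι] (d : ℕ) (w : ℝ) (v : ι ⊕ σ → ℝ)
    (k : (Option σ ⊕ Rest c b) →₀ ℕ) (hk : ∑ j, k j ≤ d) :
    ∏ j, Sum.elim (fun u : Option σ => u.elim w x) (fun o : Rest c b => mu x b (bl c o.1) * v o.1) j ^ Mx d k j =
      (∏ i, mu x b i ^ d) *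
        ∏ j, Sum.elim (fun u : Option σ => u.elim w x) (fun o : Rest c b => v o.1) j ^ k j := by
  classical
  rw [Fintype.prod_sum_type, Fintype.prod_sum_type, Fintype.prod_option, Fintype.prod_option]
  simp only [Mx, Finsupp.equivFunOnFinite_symm_apply_apply, Sum.elim_inl, Sum.elim_inr, Option.elim_none,
    Option.elim_some, add_zero, pow_add, mul_pow, Finset.prod_mul_distrib]
  have h1 : ∏ s, x s ^ (∑ i, (d - ∑ o : Rest c b, if bl c o.1 = i then k (Sum.inr o) else 0) * mex b i s) =
      ∏ i, mu x b i ^ (d - ∑ o : Rest c b, if bl c o.1 = i then k (Sum.inr o) else 0) := by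
    simp only [← Finset.prod_pow_eq_pow_sum]
    rw [Finset.prod_comm]
    exact Finset.prod_congr rfl fun i _ => prod_mex x i _
  have h2 : ∏ o : Rest c b, mu x b (bl c o.1) ^ k (Sum.inr o) =
      ∏ i, mu x b i ^ (∑ o : Rest c b, if bl c o.1 = i then k (Sum.inr o) else 0) := by
    simp only [← Finset.prod_pow_eq_pow_sum]
    rw [Finset.prod_comm]
    refine Finset.prod_congr rfl fun o _ => ?_
    rw [Finset.prod_eq_single (bl c o.1)]
    · rw [if_pos rfl]
    · intro i _ hi
      rw [if_neg hi.symm, pow_zero]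
    · intro h; exact absurd (Finset.mem_univ _) h
  have h3 : ∀ i, (∑ o : Rest c b, if bl c o.1 = i then k (Sum.inr o) else 0) ≤ d := by
    intro i
    refine le_trans ?_ hk
    rw [Fintype.sum_sum_type]
    refine le_trans (Finset.sum_le_sum fun o _ => ?_) (Nat.le_add_left _ _)
    split_ifs
    · exact le_rfl
    · exact Nat.zero_le _
  have h4 : (∏ i, mu x b i ^ (d - ∑ o : Rest c b, if bl c o.1 = i then k (Sum.inr o) else 0)) *
      (∏ i, mu x b i ^ (∑ o : Rest c b, if bl c o.1 = i then k (Sum.inr o) else 0)) = ∏ i, mu x b i ^ d := by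
    rw [← Finset.prod_mul_distrib]
    refine Finset.prod_congr rfl fun i _ => ?_
    rw [← pow_add, Nat.sub_add_cancel (h3 i)]
  rw [h1, h2, ← h4]
  ring

lemma Mx_deg [Fintype σ] [Fintype ι] [Fintype (Rest c b)] [DecidableEq ι] (d : ℕ)
    (k : (Option σ ⊕ Rest c b) →₀ ℕ) (hk : ∑ j, k j ≤ d) :
    ∑ j, Mx d k j ≤ d + Fintype.card σ * (Fintype.card ι * d) := by
  rw [Fintype.sum_sum_type, Fintype.sum_option] at hk ⊢
  simp only [Mx, Finsupp.equivFunOnFinite_symm_apply_apply, Sum.elim_inl, Sum.elim_inr, Option.elim_none,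
    Option.elim_some, add_zero, Finset.sum_add_distrib]
  have h1 : ∑ s : σ, ∑ i, (d - ∑ o : Rest c b, if bl c o.1 = i then k (Sum.inr o) else 0) * mex b i s ≤
      Fintype.card σ * (Fintype.card ι * d) := by
    rw [← smul_eq_mul, ← Finset.card_univ, ← Finset.sum_const]
    refine Finset.sum_le_sum fun s _ => ?_
    rw [← smul_eq_mul (Fintype.card ι), ← Finset.card_univ, ← Finset.sum_const]
    refine Finset.sum_le_sum fun i _ => ?_
    have h2 : mex b i s ≤ 1 := by
      simp only [mex]
      rcases b i with j | s₀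
      · simp
      · simp only [Sum.elim_inr]
        classical
        rw [Finsupp.single_apply]
        split_ifs <;> omega
    calc (d - ∑ o : Rest c b, if bl c o.1 = i then k (Sum.inr o) else 0) * mex b i s ≤ d * 1 :=
          Nat.mul_le_mul (Nat.sub_le _ _) h2
      _ = d := mul_one d
  omega

/-- **The joint measure for several blocks**: for every choice `b` of one of the numbers `z_i`, `z_i x_s - y_s` of each
block, the chosen numbers and all the others -/
theorem master [Fintype σ] [Fintype ι] (hb : ∀ i, bl c (b i) = i) (w : ℝ)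
    (h : PM (fun o : Option (σ ⊕ σ) => o.elim w (Sum.elim x y))) : ∀ d : ℕ, ∃ C : ℝ, 0 < C ∧ ∃ κ : ℕ,
    ∀ (P : ι → MvPolynomial (Option (Option σ)) ℤ) (Q : MvPolynomial (Option σ ⊕ Rest c b) ℤ),
      (∀ k, P k ≠ 0) → Q ≠ 0 → (∀ k, (P k).totalDegree ≤ d) → Q.totalDegree ≤ d → ∀ H : ℝ, 1 ≤ H →
      (∀ k, ∀ s, |(((P k).coeff s : ℤ) : ℝ)| ≤ H) → (∀ s, |((Q.coeff s : ℤ) : ℝ)| ≤ H) →
      (∃ k, C / H ^ κ ≤ |aeval (fun o : Option (Option σ) => o.elim (vv c z x y (b k)) (fun u => u.elim w x)) (P k)|) ∨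
        C / H ^ κ ≤ |aeval (Sum.elim (fun u : Option σ => u.elim w x) (fun o : Rest c b => vv c z x y o.1)) Q| := by
  classical
  intro d
  have hx0 : ∀ s, x s ≠ 0 := by
    intro s
    have h1 := h.ne_zero (P := X (some (Sum.inl s))) (X_ne_zero _)
    rwa [aeval_X] at h1
  have hmu : ∀ i, mu x b i ≠ 0 := by
    intro i
    simp only [mu]
    rcases b i with j | s₀
    · exact one_ne_zero
    · exact hx0 s₀
  obtain ⟨C, hC, κ, h1⟩ := lin_joint (fun o : Rest c b => bl c o.1) (gg c b) (fun i => vv c z x y (b i)) _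
    (be_PM x y hb w h) (d + Fintype.card σ * (Fintype.card ι * d))
  obtain ⟨δ, hδ⟩ : ∃ δ : ℝ, δ = ∏ i, mu x b i ^ d := ⟨_, rfl⟩
  have hδ0 : 0 < |δ| := abs_pos.2 (by
    rw [hδ]; exact Finset.prod_ne_zero_iff.2 fun j _ => pow_ne_zero _ (hmu j))
  refine ⟨C / (1 + |δ|), by positivity, κ, fun P Q hP hQ hPd hQd H hH hPH hQH => ?_⟩
  have hH0 : 0 < H := by linarith
  obtain ⟨Q', hQ'0, hQ'd, hQ'H, hQ'v⟩ := reidx (d := d) (D := d + Fintype.card σ * (Fintype.card ι * d))
    (fun k => Mx (c := c) (b := b) d k) (fun k k' hkk => Mx_inj d k k' hkk) (fun k hk => Mx_deg d k hk)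
    (Sum.elim (fun u : Option σ => u.elim w x) (fun o : Rest c b => vv c z x y o.1))
    (Sum.elim (fun u : Option σ => u.elim w x) (fun o : Rest c b => mu x b (bl c o.1) * vv c z x y o.1)) δ
    (fun k hk => by rw [hδ]; exact Mx_prod x d w (vv c z x y) k hk) Q hQ hQd hH0.le hQH
  have hle : C / (1 + |δ|) / H ^ κ ≤ C / H ^ κ := by
    apply div_le_div_of_nonneg_right _ (by positivity)
    exact div_le_self hC.le (by linarith)
  rcases h1 P Q' hP hQ'0 (fun k => (hPd k).trans (Nat.le_add_right _ _)) hQ'd H hH hPH hQ'H with ⟨k, hk⟩ | h2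
  · left
    exact ⟨k, hle.trans hk⟩
  · right
    have h3 : (Sum.elim (fun u => Sum.elim (fun u : Option σ => u.elim w x) (be c x y b) (Sum.inl u))
          (fun s => gval (gg c b s) (vv c z x y (b (bl c s.1)))
            (fun u => Sum.elim (fun u : Option σ => u.elim w x) (be c x y b) (Sum.inl u)) +
            Sum.elim (fun u : Option σ => u.elim w x) (be c x y b) (Sum.inr s)) : Option σ ⊕ Rest c b → ℝ) =
        Sum.elim (fun u : Option σ => u.elim w x) (fun o : Rest c b => mu x b (bl c o.1) * vv c z x y o.1) := by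
      funext o
      rcases o with u | o
      · rfl
      · exact gg_eval z x y hb w o
    rw [h3, hQ'v, abs_mul] at h2
    rw [div_div, div_le_iff₀ (by positivity)]
    rw [div_le_iff₀ (by positivity)] at h2
    have hn := abs_nonneg (aeval (Sum.elim (fun u : Option σ => u.elim w x) (fun o : Rest c b => vv c z x y o.1)) Q)
    have hHk : 0 < H ^ κ := by positivity
    calc C ≤ |δ| * |aeval (Sum.elim (fun u : Option σ => u.elim w x) (fun o : Rest c b => vv c z x y o.1)) Q| * H ^ κ := h2
      _ ≤ (1 + |δ|) * |aeval (Sum.elim (fun u : Option σ => u.elim w x) (fun o : Rest c b => vv c z x y o.1)) Q| *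
          H ^ κ := by
          apply mul_le_mul_of_nonneg_right _ hHk.le
          exact mul_le_mul_of_nonneg_right (by linarith) hn
      _ = _ := by ring

end

end Pool.Agent.Helper98.AM
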