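import Mathlib
import Pool.Agent.Helper98.AM.Master

/-!
# One block and two blocks
-/

set_option autoImplicit false

namespace Pool.Agent.Helper98.AM

open Pool.Agent.E8helper79.ZM hiding polG polG_eval polG_eval' polG_sum res_ne_zero elim_step subA subA_subA polF
  psiA psiA_none psiA_some psiA_inj polP polP_inj polP_zero polP_one polF_map polF_eval polF_sum
open MvPolynomial

/-- `z` (for `none`) and the numbers `z x_s - y_s` -/
noncomputable def v1 {σ : Type} (z : ℝ) (x y : σ → ℝ) (o : Option σ) : ℝ := o.elim z (fun s => z * x s - y s)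

/-- a name in the language of several blocks -/
def nm {σ σ' ι : Type} (i : ι) (g : σ → σ') (o : Option σ) : ι ⊕ σ' := o.elim (Sum.inl i) (fun s => Sum.inr (g s))

lemma nm_inj {σ σ' ι : Type} (i : ι) {g : σ → σ'} (hg : Function.Injective g) : Function.Injective (nm i g) := by
  rintro (_ | s) (_ | s') h
  · rfl
  · exact absurd h Sum.inl_ne_inr
  · exact absurd h Sum.inr_ne_inl
  · exact congrArg some (hg (Sum.inr_injective h))

/-- **One block.** -/
theorem single {σ : Type} [Fintype σ] (w z : ℝ) (x y : σ → ℝ)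
    (h : PM (fun o : Option (σ ⊕ σ) => o.elim w (Sum.elim x y))) (b : Option σ) :
    JM (fun o : Option (Option σ) => o.elim (v1 z x y b) (fun u => u.elim w x))
      (Sum.elim (fun u : Option σ => u.elim w x) (fun o : {o : Option σ // o ≠ b} => v1 z x y o.1)) := by
  classical
  intro d
  obtain ⟨C, hC, κ, h1⟩ := master (c := fun _ : σ => ()) (b := fun _ => nm () id b) (fun _ => z) x y (fun i => rfl) w h d
  have hinj := nm_inj () (Function.injective_id (α := σ))
  let g : Option σ ⊕ {o : Option σ // o ≠ b} → Option σ ⊕ Rest (fun _ : σ => ()) (fun _ => nm () id b) :=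
    Sum.map id (fun o => ⟨nm () id o.1, fun h2 => o.2 (hinj h2)⟩)
  have hg : Function.Injective g := Function.Injective.sumMap Function.injective_id (by
    intro o o' ho
    exact Subtype.ext (hinj (congrArg Subtype.val ho)))
  have hv : ∀ o : Option σ, vv (fun _ : σ => ()) (fun _ => z) x y (nm () id o) = v1 z x y o := by
    rintro (_ | s) <;> rfl
  refine ⟨C, hC, κ, fun P Q hP hQ hPd hQd H hH hPH hQH => ?_⟩
  rcases h1 (fun _ => P) (rename g Q) (fun _ => hP) (rename_ne hg hQ) (fun _ => hPd)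
    ((totalDegree_rename_le _ _).trans hQd) H hH (fun _ => hPH) (rename_coeff_le hg (by linarith) hQH) with ⟨k, hk⟩ | h2
  · left
    rw [hv] at hk
    exact hk
  · right
    rw [aeval_rename] at h2
    convert h2 using 3
    congr 1
    funext o
    rcases o with u | o
    · rfl
    · exact (hv o.1).symm

/-- **Two blocks.** -/
theorem double {σ σ' : Type} [Fintype σ] [Fintype σ'] (w z z' : ℝ) (x y : σ → ℝ) (x' y' : σ' → ℝ)
    (h : PM (fun o : Option ((σ ⊕ σ) ⊕ (σ' ⊕ σ')) => o.elim w (Sum.elim (Sum.elim x y) (Sum.elim x' y'))))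
    (b : Option σ) (b' : Option σ') : ∀ d : ℕ, ∃ C : ℝ, 0 < C ∧ ∃ κ : ℕ,
    ∀ (P P' : MvPolynomial (Option (Option (σ ⊕ σ'))) ℤ)
      (Q : MvPolynomial (Option (σ ⊕ σ') ⊕ ({o : Option σ // o ≠ b} ⊕ {o : Option σ' // o ≠ b'})) ℤ),
      P ≠ 0 → P' ≠ 0 → Q ≠ 0 → P.totalDegree ≤ d → P'.totalDegree ≤ d → Q.totalDegree ≤ d → ∀ H : ℝ, 1 ≤ H →
      (∀ s, |((P.coeff s : ℤ) : ℝ)| ≤ H) → (∀ s, |((P'.coeff s : ℤ) : ℝ)| ≤ H) →
      (∀ s, |((Q.coeff s : ℤ) : ℝ)| ≤ H) →
      C / H ^ κ ≤ |aeval (fun o : Option (Option (σ ⊕ σ')) => o.elim (v1 z x y b) (fun u => u.elim w (Sum.elim x x'))) P| ∨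
      C / H ^ κ ≤
        |aeval (fun o : Option (Option (σ ⊕ σ')) => o.elim (v1 z' x' y' b') (fun u => u.elim w (Sum.elim x x'))) P'| ∨
      C / H ^ κ ≤ |aeval (Sum.elim (fun u : Option (σ ⊕ σ') => u.elim w (Sum.elim x x'))
        (Sum.elim (fun o : {o : Option σ // o ≠ b} => v1 z x y o.1)
          (fun o : {o : Option σ' // o ≠ b'} => v1 z' x' y' o.1))) Q| := by
  classical
  intro d
  have h0 : PM (fun o : Option ((σ ⊕ σ') ⊕ (σ ⊕ σ')) => o.elim w (Sum.elim (Sum.elim x x') (Sum.elim y y'))) := by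
    have h1 := h.comp (Option.map_injective (Equiv.sumSumSumComm σ σ' σ σ').injective)
    convert h1 using 1
    funext o
    rcases o with _ | ((s | s) | (s | s)) <;> rfl
  obtain ⟨cc, hcc⟩ : ∃ cc : σ ⊕ σ' → Bool, cc = Sum.elim (fun _ => false) (fun _ => true) := ⟨_, rfl⟩
  obtain ⟨bb, hbb⟩ : ∃ bb : Bool → Bool ⊕ (σ ⊕ σ'), bb = fun i => if i then nm true Sum.inr b' else nm false Sum.inl b :=
    ⟨_, rfl⟩
  have hb0 : ∀ o : Option σ, bl cc (nm false Sum.inl o) = false := by
    rintro (_ | s)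
    · rfl
    · rw [hcc]; rfl
  have hb1 : ∀ o : Option σ', bl cc (nm true Sum.inr o) = true := by
    rintro (_ | s)
    · rfl
    · rw [hcc]; rfl
  have hbt : bb true = nm true Sum.inr b' := by rw [hbb]; rfl
  have hbf : bb false = nm false Sum.inl b := by rw [hbb]; rfl
  have hbl : ∀ i, bl cc (bb i) = i := by
    rintro (_ | _)
    · rw [hbf, hb0]
    · rw [hbt, hb1]
  obtain ⟨zz, hzz⟩ : ∃ zz : Bool → ℝ, zz = fun i => if i then z' else z := ⟨_, rfl⟩
  obtain ⟨C, hC, κ, h1⟩ := master (c := cc) (b := bb) zz (Sum.elim x x') (Sum.elim y y') hbl w h0 d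
  have hinj := nm_inj (ι := Bool) false (Sum.inl_injective (α := σ) (β := σ'))
  have hinj' := nm_inj (ι := Bool) true (Sum.inr_injective (α := σ) (β := σ'))
  have hn0 : ∀ o : {o : Option σ // o ≠ b}, nm false Sum.inl o.1 ≠ bb (bl cc (nm false Sum.inl o.1)) := by
    intro o h2
    rw [hb0, hbf] at h2
    exact o.2 (hinj h2)
  have hn1 : ∀ o : {o : Option σ' // o ≠ b'}, nm true Sum.inr o.1 ≠ bb (bl cc (nm true Sum.inr o.1)) := by
    intro o h2
    rw [hb1, hbt] at h2
    exact o.2 (hinj' h2)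
  let g₀ : {o : Option σ // o ≠ b} ⊕ {o : Option σ' // o ≠ b'} → Rest cc bb :=
    Sum.elim (fun o => ⟨nm false Sum.inl o.1, hn0 o⟩) (fun o => ⟨nm true Sum.inr o.1, hn1 o⟩)
  have hg₀ : Function.Injective g₀ := by
    rintro (o | o) (o' | o') h2
    · exact congrArg Sum.inl (Subtype.ext (hinj (congrArg Subtype.val h2)))
    · exfalso
      have h3 := congrArg (fun o => bl cc o.1) h2
      simp only [g₀, Sum.elim_inl, Sum.elim_inr, hb0, hb1] at h3
      exact absurd h3 Bool.false_ne_true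
    · exfalso
      have h3 := congrArg (fun o => bl cc o.1) h2
      simp only [g₀, Sum.elim_inl, Sum.elim_inr, hb0, hb1] at h3
      exact absurd h3.symm Bool.false_ne_true
    · exact congrArg Sum.inr (Subtype.ext (hinj' (congrArg Subtype.val h2)))
  let g : Option (σ ⊕ σ') ⊕ ({o : Option σ // o ≠ b} ⊕ {o : Option σ' // o ≠ b'}) → Option (σ ⊕ σ') ⊕ Rest cc bb :=
    Sum.map id g₀
  have hg : Function.Injective g := Function.Injective.sumMap Function.injective_id hg₀
  have hv : ∀ o : Option σ, vv cc zz (Sum.elim x x') (Sum.elim y y') (nm false Sum.inl o) = v1 z x y o := by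
    rintro (_ | s)
    · rw [hzz]; rfl
    · show zz (cc (Sum.inl s)) * x s - y s = _
      rw [hzz, hcc]; rfl
  have hv' : ∀ o : Option σ', vv cc zz (Sum.elim x x') (Sum.elim y y') (nm true Sum.inr o) = v1 z' x' y' o := by
    rintro (_ | s)
    · rw [hzz]; rfl
    · show zz (cc (Sum.inr s)) * x' s - y' s = _
      rw [hzz, hcc]; rfl
  refine ⟨C, hC, κ, fun P P' Q hP hP' hQ hPd hPd' hQd H hH hPH hPH' hQH => ?_⟩
  rcases h1 (fun i => if i then P' else P) (rename g Q) (by rintro (_ | _) <;> simp [hP, hP']) (rename_ne hg hQ)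
    (by rintro (_ | _) <;> simp [hPd, hPd'])
    ((totalDegree_rename_le _ _).trans hQd) H hH (by rintro (_ | _) <;> simp [hPH, hPH'])
    (rename_coeff_le hg (by linarith) hQH) with ⟨k, hk⟩ | h2
  · rcases k with _ | _
    · left
      rw [hbf, hv] at hk
      exact hk
    · right; left
      rw [hbt, hv'] at hk
      exact hk
  · right; right
    rw [aeval_rename] at h2
    convert h2 using 3
    congr 1
    funext o
    rcases o with u | (o | o)
    · rfl
    · exact (hv o.1).symm
    · exact (hv' o.1).symm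

end Pool.Agent.Helper98.AM
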