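import Mathlib
import Pool.Agent.Helper98.AM.Blocks

/-!
# Consequences of the joint measure
-/

set_option autoImplicit false

namespace Pool.Agent.Helper98.AM

open Pool.Agent.E8helper79.ZM hiding polG polG_eval polG_eval' polG_sum res_ne_zero elim_step subA subA_subA polF
  psiA psiA_none psiA_some psiA_inj polP polP_inj polP_zero polP_one polF_map polF_eval polF_sum
open MvPolynomial

/-- uniform constants for finitely many estimates -/
lemma unif {N : Type} [Fintype N] (Φ : N → ℝ → ℝ → Prop) (hanti : ∀ i H ε ε', ε' ≤ ε → Φ i H ε → Φ i H ε')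
    (h : ∀ i, ∃ c : ℝ, 0 < c ∧ ∃ κ : ℕ, ∀ H, 1 ≤ H → Φ i H (c / H ^ κ)) :
    ∃ c : ℝ, 0 < c ∧ ∃ κ : ℕ, ∀ H, 1 ≤ H → ∀ i, Φ i H (c / H ^ κ) := by
  choose c hc κ h1 using h
  have h0 : 0 ≤ ∑ i, 1 / c i := Finset.sum_nonneg fun i _ => (one_div_pos.2 (hc i)).le
  refine ⟨(1 + ∑ i, 1 / c i)⁻¹, by positivity, ∑ i, κ i, fun H hH i => ?_⟩
  refine hanti i H _ _ ?_ (h1 i H hH)
  have h2 : 1 / c i ≤ ∑ i, 1 / c i :=
    Finset.single_le_sum (f := fun i => 1 / c i) (fun i _ => (one_div_pos.2 (hc i)).le) (Finset.mem_univ i)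
  have h3 : (1 + ∑ i, 1 / c i)⁻¹ ≤ c i := by
    rw [inv_le_comm₀ (by positivity) (hc i), ← one_div]
    linarith
  have h4 : H ^ κ i ≤ H ^ ∑ i, κ i :=
    pow_le_pow_right₀ hH (Finset.single_le_sum (f := fun i => κ i) (fun i _ => Nat.zero_le _) (Finset.mem_univ i))
  have hH0 : 0 < H := by linarith
  exact div_le_div₀ (hc i).le h3 (by positivity) h4

variable {σ : Type} [Fintype σ] {w z : ℝ} {x y : σ → ℝ}

/-- at most one number has small values of polynomials -/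
theorem cons_poly (h : PM (fun o : Option (σ ⊕ σ) => o.elim w (Sum.elim x y))) (d : ℕ) :
    ∃ c : ℝ, 0 < c ∧ ∃ κ : ℕ, ∀ H : ℝ, 1 ≤ H → ∀ o o' : Option σ,
    (∃ P : MvPolynomial (Option (Option σ)) ℤ, P ≠ 0 ∧ P.totalDegree ≤ d ∧ (∀ s, |((P.coeff s : ℤ) : ℝ)| ≤ H) ∧
      |aeval (fun u : Option (Option σ) => u.elim (v1 z x y o) (fun u => u.elim w x)) P| < c / H ^ κ) →
    (∃ P : MvPolynomial (Option (Option σ)) ℤ, P ≠ 0 ∧ P.totalDegree ≤ d ∧ (∀ s, |((P.coeff s : ℤ) : ℝ)| ≤ H) ∧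
      |aeval (fun u : Option (Option σ) => u.elim (v1 z x y o') (fun u => u.elim w x)) P| < c / H ^ κ) → o = o' := by
  classical
  have key := unif (N := Option σ × Option σ) (fun i H ε =>
    (∃ P : MvPolynomial (Option (Option σ)) ℤ, P ≠ 0 ∧ P.totalDegree ≤ d ∧ (∀ s, |((P.coeff s : ℤ) : ℝ)| ≤ H) ∧
      |aeval (fun u : Option (Option σ) => u.elim (v1 z x y i.1) (fun u => u.elim w x)) P| < ε) →
    (∃ P : MvPolynomial (Option (Option σ)) ℤ, P ≠ 0 ∧ P.totalDegree ≤ d ∧ (∀ s, |((P.coeff s : ℤ) : ℝ)| ≤ H) ∧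
      |aeval (fun u : Option (Option σ) => u.elim (v1 z x y i.2) (fun u => u.elim w x)) P| < ε) → i.1 = i.2) (by
    rintro i H ε ε' hε hΦ ⟨P, h1, h2, h3, h4⟩ ⟨P', h1', h2', h3', h4'⟩
    exact hΦ ⟨P, h1, h2, h3, h4.trans_le hε⟩ ⟨P', h1', h2', h3', h4'.trans_le hε⟩) ?_
  · obtain ⟨c, hc, κ, h1⟩ := key
    exact ⟨c, hc, κ, fun H hH o o' => h1 H hH (o, o')⟩
  · rintro ⟨o, o'⟩
    by_cases hoo : o = o'
    · exact ⟨1, one_pos, 0, fun H hH _ _ => hoo⟩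
    · obtain ⟨c, hc, κ, h1⟩ := single w z x y h o d
      refine ⟨c, hc, κ, fun H hH => ?_⟩
      rintro ⟨P, hP, hPd, hPH, hPv⟩ ⟨P', hP', hPd', hPH', hPv'⟩
      exfalso
      let g : Option (Option σ) → Option σ ⊕ {o'' : Option σ // o'' ≠ o} := fun u =>
        u.elim (Sum.inr ⟨o', fun h2 => hoo h2.symm⟩) Sum.inl
      have hg : Function.Injective g := by
        rintro (_ | u) (_ | u') hu
        · rfl
        · exact absurd hu Sum.inr_ne_inl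
        · exact absurd hu Sum.inl_ne_inr
        · exact congrArg some (Sum.inl_injective hu)
      rcases h1 P (rename g P') hP (rename_ne hg hP') hPd ((totalDegree_rename_le _ _).trans hPd') H hH hPH
        (rename_coeff_le hg (by linarith) hPH') with h2 | h2
      · exact absurd h2 (not_le.2 hPv)
      · rw [aeval_rename] at h2
        have h3 : (Sum.elim (fun u : Option σ => u.elim w x) (fun o'' : {o'' : Option σ // o'' ≠ o} => v1 z x y o''.1)) ∘ g =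
            (fun u : Option (Option σ) => u.elim (v1 z x y o') (fun u => u.elim w x)) := by
          funext u
          rcases u with _ | u <;> rfl
        rw [h3] at h2
        exact absurd h2 (not_le.2 hPv')

/-- at most one number is close to algebraic numbers -/
theorem cons_alg (h : PM (fun o : Option (σ ⊕ σ) => o.elim w (Sum.elim x y))) (d : ℕ) :
    ∃ c : ℝ, 0 < c ∧ ∃ κ : ℕ, ∀ H : ℝ, 1 ≤ H → ∀ o o' : Option σ,
    (∃ α : ℂ, (∃ p : Polynomial ℤ, p ≠ 0 ∧ p.natDegree ≤ d ∧ (∀ n, |((p.coeff n : ℤ) : ℝ)| ≤ H) ∧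
      Polynomial.aeval α p = 0) ∧ ‖((v1 z x y o : ℝ) : ℂ) - α‖ < c / H ^ κ) →
    (∃ α : ℂ, (∃ p : Polynomial ℤ, p ≠ 0 ∧ p.natDegree ≤ d ∧ (∀ n, |((p.coeff n : ℤ) : ℝ)| ≤ H) ∧
      Polynomial.aeval α p = 0) ∧ ‖((v1 z x y o' : ℝ) : ℂ) - α‖ < c / H ^ κ) → o = o' := by
  classical
  have key := unif (N := Option σ × Option σ) (fun i H ε =>
    (∃ α : ℂ, (∃ p : Polynomial ℤ, p ≠ 0 ∧ p.natDegree ≤ d ∧ (∀ n, |((p.coeff n : ℤ) : ℝ)| ≤ H) ∧
      Polynomial.aeval α p = 0) ∧ ‖((v1 z x y i.1 : ℝ) : ℂ) - α‖ < ε) →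
    (∃ α : ℂ, (∃ p : Polynomial ℤ, p ≠ 0 ∧ p.natDegree ≤ d ∧ (∀ n, |((p.coeff n : ℤ) : ℝ)| ≤ H) ∧
      Polynomial.aeval α p = 0) ∧ ‖((v1 z x y i.2 : ℝ) : ℂ) - α‖ < ε) → i.1 = i.2) (by
    rintro i H ε ε' hε hΦ ⟨α, h1, h2⟩ ⟨β, h1', h2'⟩
    exact hΦ ⟨α, h1, h2.trans_le hε⟩ ⟨β, h1', h2'.trans_le hε⟩) ?_
  · obtain ⟨c, hc, κ, h1⟩ := key
    exact ⟨c, hc, κ, fun H hH o o' => h1 H hH (o, o')⟩
  · rintro ⟨o, o'⟩
    by_cases hoo : o = o'
    · exact ⟨1, one_pos, 0, fun H hH _ _ => hoo⟩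
    · obtain ⟨c, hc, κ, h1⟩ := (single w z x y h o).approx none (Sum.inr ⟨o', fun h2 => hoo h2.symm⟩) d
      refine ⟨c, hc, κ, fun H hH => ?_⟩
      rintro ⟨α, ⟨p, hp, hpd, hpH, hα⟩, h2⟩ ⟨β, ⟨r, hr, hrd, hrH, hβ⟩, h3⟩
      exfalso
      have h4 := h1 p r hp hr hpd hrd H hH hpH hrH α β hα hβ
      exact absurd h4 (not_le.2 (max_lt h2 h3))

/-- the alternative -/
theorem cons_alt (h : PM (fun o : Option (σ ⊕ σ) => o.elim w (Sum.elim x y))) (b : Option σ) :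
    AlgebraicIndependent ℚ (fun o : Option (Option σ) => o.elim (v1 z x y b) (fun u => u.elim w x)) ∨
    PM (Sum.elim (fun u : Option σ => u.elim w x) (fun o : {o : Option σ // o ≠ b} => v1 z x y o.1)) :=
  (single w z x y h b).symm.dich.symm

end Pool.Agent.Helper98.AM
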