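import Mathlib
import Pool.Graph.R_pool_sql_team_seeded_b677cdb8.E8helper65.AZ.SS
import Pool.Graph.R_pool_sql_team_seeded_b677cdb8.E8helper79.ZM.Trans

/-!
# A measure of algebraic independence for values of E-functions, from the independence of the functions
-/

set_option autoImplicit false
set_option linter.unusedSectionVars false

open PowerSeries Finset.HasAntidiagonal

namespace Pool.Agent.Helper98.AM

open Pool.Agent.R352.E Pool.Agent.Y113 Pool.Agent.E8helper65.AZ Pool.Agent.E8helper79.ZM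

variable {σ : Type} [Fintype σ] {q : ℕ} {f : σ → ℚ⟦X⟧}

/-- measure of linear independence of the values of the monomials -/
theorem ym_meas (R : Syst q f) (hf : AlgebraicIndependent (Polynomial ℚ) f) (n : ℕ) :
    ∃ c : ℝ, 0 < c ∧ ∃ κ : ℕ, ∀ a : Mo σ n → ℤ, a ≠ 0 → ∀ A : ℝ, 1 ≤ A → (∀ s, |(a s : ℝ)| ≤ A) →
      c / A ^ κ ≤ |∑ s, (a s : ℝ) * ev 1 (mo f s.1)| := by
  classical
  set N := Fintype.card (Mo σ n) with hN
  let e : Fin N ≃ Mo σ n := (Fintype.equivFin _).symm
  set y : Fin N → ℚ⟦X⟧ := fun i => ym f n (e i) with hy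
  obtain ⟨C, hC, h1, h2⟩ := EF.common (y := y) (fun i => EF_mo R (e i).1)
  have hSys : ESys q C y :=
    { one_le := hC
      hq := R.hq
      size := h1
      den := h2
      der := by
        have h3 := fun i => der_mo R n (e i).1 (e i).2
        choose B hB using h3
        refine ⟨fun i j => B i (e j), fun i => ?_⟩
        have h4 := hB i
        rw [← Equiv.sum_comp e] at h4
        exact h4 }
  have hz : ∑ i, (0 : σ →₀ ℕ) i ≤ n := by simp
  have h0 : e (e.symm ⟨0, hz⟩) = (⟨0, hz⟩ : Mo σ n) := e.apply_symm_apply _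
  obtain ⟨c, hc, κ, h3⟩ := E_meas hSys (e.symm ⟨0, hz⟩) (by
    rw [hy]
    simp only [h0]
    exact mo_zero) ((ym_LI hf n).comp e e.injective)
  refine ⟨c, hc, κ, fun a ha A hA1 hA => ?_⟩
  have h4 := h3 (fun i => a (e i)) (fun h5 => ha (by
    funext s
    have := congrFun h5 (e.symm s)
    simpa using this)) A hA1 (fun i => hA _)
  rw [← Equiv.sum_comp e]
  exact h4

/-- **A measure of algebraic independence of the values at `1`.** -/
theorem syst_PM (R : Syst q f) (hf : AlgebraicIndependent (Polynomial ℚ) f) : PM (fun s => ev 1 (f s)) := by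
  classical
  intro d
  obtain ⟨c, hc, κ, hmeas⟩ := ym_meas R hf d
  refine ⟨c, hc, κ, fun p hp hd H hH hcoef => ?_⟩
  have hmem : ∀ s ∈ p.support, ∑ i, s i ≤ d := by
    intro s hs
    have h2 := (MvPolynomial.le_totalDegree hs).trans hd
    rwa [Finsupp.sum_fintype _ _ (fun _ => rfl)] at h2
  have hm := hmeas (fun s => MvPolynomial.coeff s.1 p) (by
    intro h
    apply hp
    ext s
    rw [MvPolynomial.coeff_zero]
    by_cases hs : s ∈ p.support
    · exact congrFun h ⟨s, hmem s hs⟩
    · exact MvPolynomial.notMem_support_iff.1 hs) H hH (fun s => hcoef _)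
  convert hm using 2
  have h1 : ∑ s : Mo σ d, ((MvPolynomial.coeff s.1 p : ℤ) : ℝ) * ev 1 (mo f s.1) =
      ∑ s ∈ (Finset.univ : Finset (Mo σ d)).map ⟨Subtype.val, Subtype.val_injective⟩,
        ((MvPolynomial.coeff s p : ℤ) : ℝ) * ev 1 (mo f s) := by
    rw [Finset.sum_map]; rfl
  rw [h1]
  have h2 : p.support ⊆ (Finset.univ : Finset (Mo σ d)).map ⟨Subtype.val, Subtype.val_injective⟩ := by
    intro s hs
    rw [Finset.mem_map]
    exact ⟨⟨s, hmem s hs⟩, Finset.mem_univ _, rfl⟩
  rw [← Finset.sum_subset h2 (fun s _ hs => by rw [MvPolynomial.notMem_support_iff.1 hs, Int.cast_zero, zero_mul])]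
  conv_lhs => rw [MvPolynomial.as_sum p, map_sum]
  refine Finset.sum_congr rfl fun s _ => ?_
  rw [MvPolynomial.aeval_monomial, ev_mo R, Finsupp.prod_fintype _ _ (fun i => pow_zero _)]
  simp

end Pool.Agent.Helper98.AM
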