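import Mathlib
import Pool.Agent.Helper98.AM.Ms
import Pool.Graph.R_pool_sql_team_seeded_b677cdb8.E8helper42.AZ.Pre3

/-!
# A measure of algebraic independence for `e` and the exponential Apery series
-/

set_option autoImplicit false
set_option linter.unusedSectionVars false

namespace Pool.Agent.Helper98.AM

open Pool.Agent.R352.E Pool.Agent.Y113 Pool.Agent.E8helper65.AZ Pool.Agent.E8helper79.ZM Pool.Agent.E8helper42.AZ
open Pool.Agent.E8helper75.AZ Pool.Agent.E8helper41.AZ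

/-- the values of the functions -/
theorem vals_PM {a b a' b' : ℕ → ℚ} (hab : AperyPair a b) (ha : EFc a) (hb : EFc b) (hab' : AperyPair2 a' b')
    (ha' : EFc a') (hb' : EFc b') (T T' : Finset ℚ)
    (hind : AlgebraicIndependent (Polynomial ℚ)
      (fun o : Option (((T × Fin 4) ⊕ (T × Fin 4)) ⊕ ((T' × Fin 3) ⊕ (T' × Fin 3))) =>
    o.elim (PowerSeries.exp ℚ) (Sum.elim (fam a b T) (fam3 a' b' T')))) :
    PM (fun o : IxG T T' => o.elim (Real.exp 1) (Sum.elim (vals a b T) (vals3 a' b' T'))) := by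
  classical
  obtain ⟨q, hq⟩ := syst_fam hab ha hb T
  obtain ⟨r, hr⟩ := syst_fam3 hab' ha' hb' T'
  have h1 := Syst_mul hq hr.hq
  have h2 := Syst_mul hr hq.hq
  rw [mul_comm] at h2
  have h := syst_PM (Syst_exp (Syst_sum h1 h2)) hind
  convert h using 1
  funext o
  rcases o with _ | s
  · exact ev_exp.symm
  · rcases s with (⟨t, j⟩ | ⟨t, j⟩) | (⟨t, j⟩ | ⟨t, j⟩)
    · exact val_ev a t j
    · exact val_ev b t j
    · exact val_ev a' t j
    · exact val_ev b' t j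

theorem bw_mem {F : IntermediateField ℚ ℝ} (t : ℚ) {x : Fin 4 → ℝ} (hx : ∀ i, x i ∈ F) (j : Fin 4) : bw t x j ∈ F := by
  have hs : ∀ (r : ℚ) (y : ℝ), y ∈ F → r • y ∈ F := fun r y hy => F.smul_mem hy
  fin_cases j
  · exact hx 0
  · exact hs _ _ (hx 1)
  · exact hs _ _ (F.sub_mem (hx 2) (hx 1))
  · exact hs _ _ (F.add_mem (F.sub_mem (hx 3) (hs _ _ (hx 2))) (hs _ _ (hx 1)))

theorem bw3_mem {F : IntermediateField ℚ ℝ} (t : ℚ) {x : Fin 3 → ℝ} (hx : ∀ i, x i ∈ F) (j : Fin 3) : bw3 t x j ∈ F := by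
  have hs : ∀ (r : ℚ) (y : ℝ), y ∈ F → r • y ∈ F := fun r y hy => F.smul_mem hy
  fin_cases j
  · exact hx 0
  · exact hs _ _ (hx 1)
  · exact hs _ _ (F.sub_mem (hx 2) (hx 1))

/-- the numbers `e`, `A_j(t)`, `B_j(t)`, `A'_j(t)`, `B'_j(t)` for finitely many points -/
theorem dvs_PM {a b a' b' : ℕ → ℚ} (ha : EFc a) (hb : EFc b) (ha' : EFc a') (hb' : EFc b') (T T' : Finset ℚ)
    (hT : ∀ t ∈ T, t ≠ 0) (hT' : ∀ t ∈ T', t ≠ 0) (w : ℝ)
    (hv : PM (fun o : IxG T T' => o.elim w (Sum.elim (vals a b T) (vals3 a' b' T'))))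
    (hI : AlgebraicIndependent ℚ (fun o : IxG T T' => o.elim w (Sum.elim (vals a b T) (vals3 a' b' T')))) :
    PM (fun o : IxG T T' => o.elim w
      (Sum.elim (fun s => s.elim (fun p => dv a p.1 p.2) (fun p => dv b p.1 p.2))
        (fun s => s.elim (fun p => dv a' p.1 p.2) (fun p => dv b' p.1 p.2)))) := by
  classical
  refine hv.adjoin (t_DVM a b a' b' ha hb ha' hb' w T T' hT hT' hI) ?_
  have hmem : ∀ o, (fun o : IxG T T' => o.elim w (Sum.elim (vals a b T) (vals3 a' b' T'))) o ∈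
      IntermediateField.adjoin ℚ (Set.range (fun o : IxG T T' => o.elim w (Sum.elim (vals a b T) (vals3 a' b' T')))) :=
    fun o => IntermediateField.subset_adjoin _ _ ⟨o, rfl⟩
  rintro (_ | (p | p) | (p | p))
  · exact hmem none
  · show dv a p.1 p.2 ∈ _
    rw [dv_eq a ha (hT p.1 p.1.2) p.2]
    exact bw_mem _ (fun i => hmem (some (Sum.inl (Sum.inl (p.1, i))))) _
  · show dv b p.1 p.2 ∈ _
    rw [dv_eq b hb (hT p.1 p.1.2) p.2]
    exact bw_mem _ (fun i => hmem (some (Sum.inl (Sum.inr (p.1, i))))) _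
  · show dv a' p.1 p.2 ∈ _
    rw [dv_eq3 a' ha' (hT' p.1 p.1.2) p.2]
    exact bw3_mem _ (fun i => hmem (some (Sum.inr (Sum.inl (p.1, i))))) _
  · show dv b' p.1 p.2 ∈ _
    rw [dv_eq3 b' hb' (hT' p.1 p.1.2) p.2]
    exact bw3_mem _ (fun i => hmem (some (Sum.inr (Sum.inr (p.1, i))))) _

/-- the index type of all the numbers -/
abbrev Ix := Option ((Prs 4 ⊕ Prs 4) ⊕ (Prs 3 ⊕ Prs 3))

/-- the numbers `e`, `A_j(t)`, `B_j(t)`, `A'_j(t)`, `B'_j(t)` -/
noncomputable def allv (a b a' b' : ℕ → ℚ) : Ix → ℝ := fun o => o.elim (Real.exp 1)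
    (Sum.elim (Sum.elim (fun p => dv a p.1.2 p.1.1) (fun p => dv b p.1.2 p.1.1))
      (Sum.elim (fun p => dv a' p.1.2 p.1.1) (fun p => dv b' p.1.2 p.1.1)))

/-- **The measure of algebraic independence** for `e` and the exponential Apery series -/
theorem all_meas : ∃ a b a' b' : ℕ → ℚ, AperyPair a b ∧ AperyPair2 a' b' ∧
    (∀ n, Jn n = (a n : ℝ) * z3 - (b n : ℝ)) ∧
    (∀ n, Jn2 n = (a' n : ℝ) * (Real.pi ^ 2 / 6) - (b' n : ℝ)) ∧
    (∀ (j : ℕ) (t : ℚ), ∑' n : ℕ, Jn (n + j) * (t : ℝ) ^ n / (n.factorial : ℝ) = z3 * dv a t j - dv b t j) ∧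
    (∀ (j : ℕ) (t : ℚ), ∑' n : ℕ, Jn2 (n + j) * (t : ℝ) ^ n / (n.factorial : ℝ) =
      (Real.pi ^ 2 / 6) * dv a' t j - dv b' t j) ∧
    AlgebraicIndependent ℚ (allv a b a' b') ∧
    ∀ (κ : Type) [Finite κ] (g : κ → Ix), Function.Injective g → PM (fun k => allv a b a' b' (g k)) := by
  classical
  obtain ⟨a, b, hab, ha, hb, hJ⟩ := E8helper51.AZ.t_AP
  obtain ⟨a', b', hab', ha', hb', hJ'⟩ := E8helper48.AZ.t_AP2
  have hfun : ∀ T T' : Finset ℚ, (∀ t ∈ T, 0 < t) → (∀ t ∈ T', 0 < t) → AlgebraicIndependent (Polynomial ℚ)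
      (fun o : Option (((T × Fin 4) ⊕ (T × Fin 4)) ⊕ ((T' × Fin 3) ⊕ (T' × Fin 3))) =>
    o.elim (PowerSeries.exp ℚ) (Sum.elim (fam a b T) (fam3 a' b' T'))) := fun T T' hT hT' =>
    t_FUNM E8helper99.AZ.mix E8helper75.AZ.t_IDM E8helper52.AZ3.t_P3G E8helper77.AZ.kap3 E8helper77.AZ.kapm
      E8helper23.AZ.t_EXP E8helper30.AZ.t_AB3 a b a' b' hab hab' T T' hT hT'
  have hval : ∀ T T' : Finset ℚ, (∀ t ∈ T, 0 < t) → (∀ t ∈ T', 0 < t) → AlgebraicIndependent ℚ
      (fun o : IxG T T' => o.elim (Real.exp 1) (Sum.elim (vals a b T) (vals3 a' b' T'))) := fun T T' hT hT' =>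
    E8helper75.AZ.t_SSEM a b a' b' hab ha hb hab' ha' hb' T T' (fun t ht => (hT t ht).ne') (fun t ht => (hT' t ht).ne')
      (hfun T T' hT hT')
  refine ⟨a, b, a', b', hab, hab', hJ, hJ', E8helper41.AZ.iv a b ha hb hJ, t_IV3 a' b' ha' hb' hJ', ?_, ?_⟩
  · refine t_INF a b a' b' (Real.exp 1) fun T T' hT hT' => ?_
    exact t_DVM a b a' b' ha hb ha' hb' _ T T' (fun t ht => (hT t ht).ne') (fun t ht => (hT' t ht).ne') (hval T T' hT hT')
  · intro κ _ g hg
    set pt : Ix → ℚ :=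
      fun o => o.elim 1 (Sum.elim (Sum.elim (fun p => p.1.2) (fun p => p.1.2))
        (Sum.elim (fun p => p.1.2) (fun p => p.1.2))) with hpt
    have _ := Fintype.ofFinite κ
    set T : Finset ℚ := Finset.univ.image (fun k => pt (g k)) with hT
    have hTpos : ∀ t ∈ T, 0 < t := by
      intro t ht
      obtain ⟨k, -, rfl⟩ := Finset.mem_image.mp ht
      rcases g k with _ | (p | p) | (p | p)
      · exact one_pos
      · exact p.2.2
      · exact p.2.2
      · exact p.2.2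
      · exact p.2.2
    have hmem : ∀ k, pt (g k) ∈ T := fun k => Finset.mem_image_of_mem _ (Finset.mem_univ k)
    have hT0 : ∀ t ∈ T, t ≠ 0 := fun t ht => (hTpos t ht).ne'
    let e : {o : Ix // pt o ∈ T} → IxG T T := fun v =>
      match v with
      | ⟨none, _⟩ => none
      | ⟨some (Sum.inl (Sum.inl p)), h⟩ => some (Sum.inl (Sum.inl (⟨p.1.2, h⟩, ⟨p.1.1, p.2.1⟩)))
      | ⟨some (Sum.inl (Sum.inr p)), h⟩ => some (Sum.inl (Sum.inr (⟨p.1.2, h⟩, ⟨p.1.1, p.2.1⟩)))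
      | ⟨some (Sum.inr (Sum.inl p)), h⟩ => some (Sum.inr (Sum.inl (⟨p.1.2, h⟩, ⟨p.1.1, p.2.1⟩)))
      | ⟨some (Sum.inr (Sum.inr p)), h⟩ => some (Sum.inr (Sum.inr (⟨p.1.2, h⟩, ⟨p.1.1, p.2.1⟩)))
    have he : Function.Injective e := by
      rintro ⟨v, hv⟩ ⟨u, hu⟩ h
      rcases v with _ | (v | v) | (v | v) <;> rcases u with _ | (u | u) | (u | u) <;>
        first
          | rfl
          | (exfalso; simp [e] at h; done)
          | (simp only [e, Option.some.injEq, Sum.inl.injEq, Sum.inr.injEq, Prod.mk.injEq,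
              Fin.mk.injEq] at h
             have : v = u := Subtype.ext (Prod.ext h.2 (congrArg (fun x : T => (x : ℚ)) h.1))
             subst this; rfl)
    have h1 := (dvs_PM ha hb ha' hb' T T hT0 hT0 (Real.exp 1) (vals_PM hab ha hb hab' ha' hb' T T (hfun T T hTpos hTpos))
      (hval T T hTpos hTpos)).comp (g := fun k : κ => e ⟨g k, hmem k⟩) (fun k k' h => hg (by
        have := he h
        exact congrArg Subtype.val this))
    convert h1 using 1
    funext k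
    have key : ∀ v : {o : Ix // pt o ∈ T}, allv a b a' b' v.1 = (e v).elim (Real.exp 1)
        (Sum.elim (fun s => s.elim (fun p => dv a p.1 p.2) (fun p => dv b p.1 p.2))
        (fun s => s.elim (fun p => dv a' p.1 p.2) (fun p => dv b' p.1 p.2))) := by
      rintro ⟨v, hv⟩
      rcases v with _ | (v | v) | (v | v) <;> rfl
    exact key ⟨g k, hmem k⟩

end Pool.Agent.Helper98.AM
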